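import Pool.Agent.N355.TF.Defs

/-! Basic facts on the corner coordinates and the new vertices. -/

set_option autoImplicit false

namespace Pool.Agent.N355.TF

open Set Pool.Agent.Helper167.Torus

lemma nf0 : nf 0 = ⟨1, 0, -2, 24⟩ := nf_vals.1
lemma nf6 : nf 6 = ⟨-1, 0, -2, 24⟩ := nf_vals.2.2.2.2.2.2.1
lemma nf8 : nf 8 = ⟨-1, -1, -2, 26⟩ := nf_vals.2.2.2.2.2.2.2.2.1

lemma cX_eq (p : E3) : cX p = (-p 0 - 2 * p 2 + 24) / 8 := by
  unfold cX ev
  rw [nf6]
  norm_num
  ring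

lemma cY_eq (p : E3) : cY p = (p 0 - 2 * p 2 + 24) / 36 := by
  unfold cY ev
  rw [nf0]
  norm_num
  ring

lemma cZ_eq (p : E3) : cZ p = (-p 0 - p 1 - 2 * p 2 + 26) / 4 := by
  unfold cZ ev
  rw [nf8]
  norm_num
  ring

@[simp] lemma cpt_0 (a b c : ℝ) : cpt a b c 0 = -4 * a + 18 * b := by simp [cpt]
@[simp] lemma cpt_1 (a b c : ℝ) : cpt a b c 1 = 2 + 8 * a - 4 * c := by simp [cpt]
@[simp] lemma cpt_2 (a b c : ℝ) : cpt a b c 2 = 12 - 2 * a - 9 * b := by simp [cpt]

@[simp] lemma cX_cpt (a b c : ℝ) : cX (cpt a b c) = a := by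
  rw [cX_eq]; simp; ring
@[simp] lemma cY_cpt (a b c : ℝ) : cY (cpt a b c) = b := by
  rw [cY_eq]; simp; ring
@[simp] lemma cZ_cpt (a b c : ℝ) : cZ (cpt a b c) = c := by
  rw [cZ_eq]; simp; ring

lemma cpt_coord (p : E3) : cpt (cX p) (cY p) (cZ p) = p := by
  ext i
  fin_cases i
  · simp [cX_eq, cY_eq]; ring
  · simp [cX_eq, cZ_eq]; ring
  · simp [cX_eq, cY_eq]; ring

lemma cpt_add (a b c a' b' c' s t : ℝ) (h : s + t = 1) :
    s • cpt a b c + t • cpt a' b' c' = cpt (s * a + t * a') (s * b + t * b') (s * c + t * c') := by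
  ext i
  fin_cases i
  · simp; ring
  · have : t = 1 - s := by linarith
    subst this
    simp; ring
  · have : t = 1 - s := by linarith
    subst this
    simp; ring

/-- three points with weights -/
lemma cpt_comb3 (a b c a' b' c' a'' b'' c'' r s t : ℝ) (h : r + s + t = 1) :
    r • cpt a b c + s • cpt a' b' c' + t • cpt a'' b'' c'' =
      cpt (r * a + s * a' + t * a'') (r * b + s * b' + t * b'') (r * c + s * c' + t * c'') := by
  have ht : t = 1 - r - s := by linarith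
  subst ht
  ext i
  fin_cases i <;> simp <;> ring

lemma G_eq (m j : ℕ) (p : E3) : G m j p = lG m j p + kG m j := by
  unfold G lG kG
  simp only [ContinuousLinearMap.add_apply, ContinuousLinearMap.smul_apply, smul_eq_mul, lin_apply]
  rw [cX_eq, cY_eq, cZ_eq, nf0, nf6, nf8]
  push_cast
  ring

lemma G_cpt (m j : ℕ) (a b c : ℝ) : G m j (cpt a b c) =
    (m : ℝ) * (2 * m - 2 * j - 1) * a + (m : ℝ) * (2 * j + 1) * b + gk m j * (c - 1 / 2) := by
  simp [G]

lemma gk_pos {m j : ℕ} (hj : j < m) : 0 < gk m j := by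
  unfold gk
  have h1 : (j : ℝ) + 1 ≤ m := by exact_mod_cast hj
  have h2 : (0 : ℝ) ≤ j := Nat.cast_nonneg j
  nlinarith

lemma PT_old {m k : ℕ} (hk : k < 24) : PT m k = pt (vert k) := by simp [PT, hk]
lemma PT_apex (m : ℕ) : PT m 24 = cpt 0 0 (1 / 2) := by simp [PT]
lemma PT_chain (m t : ℕ) : PT m (25 + t) =
    cpt ((t : ℝ) ^ 2 / (2 * m ^ 2)) (((m : ℝ) - t) ^ 2 / (2 * m ^ 2)) 0 := by
  have h1 : ¬ (25 + t < 24) := by omega
  have h2 : ¬ (25 + t = 24) := by omega
  have h3 : 25 + t - 25 = t := by omega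
  simp [PT, h1, h2, h3]

lemma v4 : pt (vert 4) = cpt 0 0 0 := by
  have h : vert 4 = ⟨0, 2, 12, 1⟩ := by decide +kernel
  rw [h]
  ext i
  fin_cases i <;> simp [pt]
lemma v3 : pt (vert 3) = cpt 1 0 0 := by
  have h : vert 3 = ⟨-4, 10, 10, 1⟩ := by decide +kernel
  rw [h]
  ext i
  fin_cases i <;> simp [pt] <;> norm_num
lemma v23 : pt (vert 23) = cpt 0 1 0 := by
  have h : vert 23 = ⟨18, 2, 3, 1⟩ := by decide +kernel
  rw [h]
  ext i
  fin_cases i <;> simp [pt] <;> norm_num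
lemma v5 : pt (vert 5) = cpt 0 0 1 := by
  have h : vert 5 = ⟨0, -2, 12, 1⟩ := by decide +kernel
  rw [h]
  ext i
  fin_cases i <;> simp [pt] <;> norm_num

lemma G_apex (m j : ℕ) : G m j (PT m 24) = 0 := by
  rw [PT_apex, G_cpt]; ring

lemma G_chain {m : ℕ} (hm : 0 < m) (j t : ℕ) :
    G m j (PT m (25 + t)) = ((t : ℝ) - j) * ((t : ℝ) - j - 1) := by
  have h : (m : ℝ) ≠ 0 := by exact_mod_cast hm.ne'
  rw [PT_chain, G_cpt]
  unfold gk
  field_simp
  ring

lemma G_corner {m j : ℕ} (hj : j < m) : G m j (pt (vert 4)) < 0 := by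
  rw [v4, G_cpt]
  have := gk_pos hj
  linarith

/-- `G` is positive where the corner coordinates are nonnegative and one of them exceeds `1/2` -/
lemma G_pos_of {m j : ℕ} (hj : j < m) {p : E3} (hX : 0 ≤ cX p) (hY : 0 ≤ cY p) (hZ : 0 ≤ cZ p)
    (h : 1 / 2 < cX p ∨ 1 / 2 < cY p ∨ 1 / 2 < cZ p) : 0 < G m j p := by
  have h1 : (j : ℝ) + 1 ≤ m := by exact_mod_cast hj
  have h2 : (0 : ℝ) ≤ j := Nat.cast_nonneg j
  have hk := gk_pos hj
  have hm : (0 : ℝ) < m := by linarith
  have hA : 0 < (m : ℝ) * (2 * m - 2 * j - 1) := by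
    apply mul_pos hm; linarith
  have hB : 0 < (m : ℝ) * (2 * j + 1) := by positivity
  have hAk : gk m j ≤ (m : ℝ) * (2 * m - 2 * j - 1) := by
    unfold gk
    nlinarith
  have hBk : gk m j ≤ (m : ℝ) * (2 * j + 1) := by
    unfold gk
    nlinarith
  unfold G
  rcases h with h | h | h
  · nlinarith [mul_nonneg hB.le hY, mul_nonneg hk.le hZ, mul_lt_mul_of_pos_left h hA]
  · nlinarith [mul_nonneg hA.le hX, mul_nonneg hk.le hZ, mul_lt_mul_of_pos_left h hB]
  · nlinarith [mul_nonneg hA.le hX, mul_nonneg hB.le hY, mul_lt_mul_of_pos_left h hk]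

lemma chk_old : ((List.range 24).all fun k => k == 4 ||
    (decide (0 ≤ dot (nf 6) (vert k)) && decide (0 ≤ dot (nf 0) (vert k)) &&
      decide (0 ≤ dot (nf 8) (vert k)) &&
      (decide (4 * (vert k).w < dot (nf 6) (vert k)) || decide (18 * (vert k).w < dot (nf 0) (vert k)) ||
        decide (2 * (vert k).w < dot (nf 8) (vert k))))) = true := by
  decide +kernel

/-- `G` is positive at the old vertices except the corner -/
lemma G_old {m j k : ℕ} (hj : j < m) (hk : k < 24) (h4 : k ≠ 4) : 0 < G m j (pt (vert k)) := by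
  have h := chk_old
  rw [List.all_eq_true] at h
  have h1 := h k (List.mem_range.2 hk)
  simp only [Bool.or_eq_true, Bool.and_eq_true, decide_eq_true_eq, beq_iff_eq] at h1
  rcases h1 with h1 | ⟨⟨⟨a1, a2⟩, a3⟩, a4⟩
  · exact absurd h1 h4
  have hw := vw_pos k
  have e6 := ev_vert (nf 6) k
  have e0 := ev_vert (nf 0) k
  have e8 := ev_vert (nf 8) k
  apply G_pos_of hj
  · exact div_nonneg (ev_vert_nonneg _ _ a1) (by norm_num)
  · exact div_nonneg (ev_vert_nonneg _ _ a2) (by norm_num)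
  · exact div_nonneg (ev_vert_nonneg _ _ a3) (by norm_num)
  · rcases a4 with (a4 | a4) | a4
    · left
      have : (4 * (vert k).w : ℝ) < (dot (nf 6) (vert k) : ℤ) := by exact_mod_cast a4
      unfold cX
      rw [e6, lt_div_iff₀ (by norm_num), lt_div_iff₀ hw]
      linarith
    · right; left
      have : (18 * (vert k).w : ℝ) < (dot (nf 0) (vert k) : ℤ) := by exact_mod_cast a4
      unfold cY
      rw [e0, lt_div_iff₀ (by norm_num), lt_div_iff₀ hw]
      linarith
    · right; right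
      have : (2 * (vert k).w : ℝ) < (dot (nf 8) (vert k) : ℤ) := by exact_mod_cast a4
      unfold cZ
      rw [e8, lt_div_iff₀ (by norm_num), lt_div_iff₀ hw]
      linarith

/-- the new vertices are nonnegative combinations: a functional which is linear up to a constant -/
lemma lin_cpt (l : E3 →L[ℝ] ℝ) (a b c : ℝ) : l (cpt a b c) =
    (1 - a - b - c) * l (pt (vert 4)) + a * l (pt (vert 3)) + b * l (pt (vert 23)) +
      c * l (pt (vert 5)) := by
  have h : cpt a b c = (1 - a - b - c) • pt (vert 4) + a • pt (vert 3) + b • pt (vert 23) +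
      c • pt (vert 5) := by
    rw [v4, v3, v23, v5]
    ext i
    fin_cases i <;> simp <;> ring
  rw [h]
  simp

lemma mem_SF {m i : ℕ} {p : E3} : p ∈ SF m i ↔ ∃ k ∈ FV m i, PT m k = p := by
  classical
  simp [SF]

end Pool.Agent.N355.TF
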