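import Pool.Agent.N355.TF.SepOO

/-! A proper colouring of the faces with five colours. -/

set_option autoImplicit false

namespace Pool.Agent.N355.TF

open Set Pool.Agent.Helper167.Torus

/-- the colour of a face -/
def cl (i : ℕ) : ℕ :=
  if i < 15 then [0, 1, 1, 0, 2, 2, 3, 0, 1, 1, 3, 4, 2, 1, 0].getD i 0
  else if (i - 15) % 2 = 0 then 2 else 4

lemma cl_old_lt {i : ℕ} (hi : i < 15) : cl i < 5 := by
  have h : ((List.range 15).all fun i => decide (cl i < 5)) = true := by decide +kernel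
  rw [List.all_eq_true] at h
  simpa using h i (List.mem_range.2 hi)

lemma cl_lt (i : ℕ) : cl i < 5 := by
  rcases lt_or_ge i 15 with h | h
  · exact cl_old_lt h
  · unfold cl
    rw [if_neg (not_lt.2 h)]
    split_ifs <;> norm_num


lemma chk_cl15 : ((List.range 15).all fun i => (List.range 15).all fun j => i == j ||
    decide (cl i ≠ cl j) || ((fv i).all fun a => (fv i).all fun b => a == b ||
      decide (a ∉ fv j) || decide (b ∉ fv j))) = true := by
  decide +kernel

lemma cl15 {i j a b : ℕ} (hi : i < 15) (hj : j < 15) (hij : i ≠ j) (hab : a ≠ b) (ha : a ∈ fv i)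
    (hb : b ∈ fv i) (ha' : a ∈ fv j) (hb' : b ∈ fv j) : cl i ≠ cl j := by
  have h := chk_cl15
  rw [List.all_eq_true] at h
  have h1 := h i (List.mem_range.2 hi)
  rw [List.all_eq_true] at h1
  have h2 := h1 j (List.mem_range.2 hj)
  rw [Bool.or_eq_true, Bool.or_eq_true, List.all_eq_true] at h2
  rcases h2 with (h2 | h2) | h2
  · exact absurd (by simpa using h2) hij
  · simpa using h2
  · have h3 := h2 a ha
    rw [List.all_eq_true] at h3
    have h4 := h3 b hb
    simp only [Bool.or_eq_true, beq_iff_eq, decide_eq_true_eq] at h4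
    tauto

lemma cl068 {i j : ℕ} (hi : i = 0 ∨ i = 6 ∨ i = 8) (hj : j = 0 ∨ j = 6 ∨ j = 8) (hij : i ≠ j) :
    cl i ≠ cl j := by
  rcases hi with rfl | rfl | rfl <;> rcases hj with rfl | rfl | rfl <;>
    first
    | exact absurd rfl hij
    | decide +kernel

lemma cl_new (x : ℕ) : cl (15 + x) = if x % 2 = 0 then 2 else 4 := by
  unfold cl
  have e1 : 15 + x - 15 = x := by omega
  have e2 : ¬ (15 + x < 15) := by omega
  rw [if_neg e2, e1]

lemma cl_old_new {i j : ℕ} (hi : i = 0 ∨ i = 6 ∨ i = 8) (hj : 15 ≤ j) : cl i ≠ cl j := by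
  have h : cl j = 2 ∨ cl j = 4 := by
    unfold cl
    rw [if_neg (not_lt.2 hj)]
    split_ifs <;> simp
  have h0 : cl 0 = 0 := by decide +kernel
  have h6 : cl 6 = 3 := by decide +kernel
  have h8 : cl 8 = 1 := by decide +kernel
  rcases hi with rfl | rfl | rfl <;> omega

lemma special {m i k : ℕ} (hi : i < 15) (hk : k ∈ FV m i) (h24 : 24 ≤ k) : i = 0 ∨ i = 6 ∨ i = 8 := by
  rcases FV_cases hi hk with ⟨h1, -, -⟩ | ⟨-, h⟩ | ⟨t, -, -, h⟩
  · omega
  · omega
  · omega

theorem col5 : ∀ m : ℕ, 0 < m → ∃ c : ℕ → Fin 5, ∀ i j a b : ℕ, i < 15 + m → j < 15 + m →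
    i ≠ j → a ≠ b → a ∈ FV m i → b ∈ FV m i → a ∈ FV m j → b ∈ FV m j → c i ≠ c j := by
  intro m hm
  refine ⟨fun i => ⟨cl i, cl_lt i⟩, fun i j a b hi hj hij hab ha hb ha' hb' => ?_⟩
  intro h
  have h := Fin.mk.inj h
  revert h
  rw [imp_false]
  rcases lt_or_ge i 15 with hi' | hi' <;> rcases lt_or_ge j 15 with hj' | hj'
  · rcases lt_or_ge a 24 with a24 | a24
    · rcases lt_or_ge b 24 with b24 | b24
      · have mem : ∀ {k l : ℕ}, l < 15 → k < 24 → k ∈ FV m l → k ∈ fv l := by
          intro k l hl hk24 hk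
          rcases FV_cases hl hk with ⟨-, -, h3⟩ | ⟨rfl, -⟩ | ⟨t, -, rfl, -⟩
          · exact h3
          · omega
          · omega
        exact cl15 hi' hj' hij hab (mem hi' a24 ha) (mem hi' b24 hb) (mem hj' a24 ha')
          (mem hj' b24 hb')
      · exact cl068 (special hi' hb b24) (special hj' hb' b24) hij
    · exact cl068 (special hi' ha a24) (special hj' ha' a24) hij
  · obtain ⟨y, rfl⟩ := Nat.exists_eq_add_of_le hj'
    have h1 : 24 ≤ a := by rw [mem_FVnew] at ha'; omega
    exact cl_old_new (special hi' ha h1) hj'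
  · obtain ⟨x, rfl⟩ := Nat.exists_eq_add_of_le hi'
    have h1 : 24 ≤ a := by rw [mem_FVnew] at ha; omega
    exact (cl_old_new (special hj' ha' h1) hi').symm
  · obtain ⟨x, rfl⟩ := Nat.exists_eq_add_of_le hi'
    obtain ⟨y, rfl⟩ := Nat.exists_eq_add_of_le hj'
    rw [mem_FVnew] at ha hb ha' hb'
    have hxy : x = y + 1 ∨ y = x + 1 := by omega
    have ex := cl_new x
    have ey := cl_new y
    rw [ex, ey]
    split_ifs <;> omega

/-- The faces of the torus with 15 faces are coloured with five colours. -/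
lemma col5_base : ∃ c : Fin 15 → Fin 5, ∀ i j : Fin 15, i ≠ j → (Pool.Agent.Helper167.Torus.com i j).length = 2 →
    c i ≠ c j := by
  refine ⟨fun i => ⟨cl i, cl_lt i⟩, fun i j hij hl => ?_⟩
  intro h
  have h := Fin.mk.inj h
  revert h
  rw [imp_false]
  have hij' : i.1 ≠ j.1 := fun h => hij (Fin.ext h)
  obtain ⟨h1, h2, h3⟩ := com_spec i.1 j.1 i.2 j.2 hij'
  match hc : Pool.Agent.Helper167.Torus.com i j with
  | [a, b] =>
    have ma : a ∈ Pool.Agent.Helper167.Torus.com i j := by rw [hc]; simp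
    have mb : b ∈ Pool.Agent.Helper167.Torus.com i j := by rw [hc]; simp
    have hab : a ≠ b := by
      rintro rfl
      rw [hc] at h3
      simp at h3
    obtain ⟨a1, a2⟩ := (mem_com i j a).1 ma
    obtain ⟨b1, b2⟩ := (mem_com i j b).1 mb
    exact cl15 i.2 j.2 hij' hab a1 b1 a2 b2
  | [] => rw [hc] at hl; simp at hl
  | [a] => rw [hc] at hl; simp at hl
  | a :: b :: c :: L => rw [hc] at hl; simp at hl

end Pool.Agent.N355.TF
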