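import Pool.Agent.N355.TF.Stm

/-! A point of a new face in barycentric coordinates (helper764). -/

set_option autoImplicit false

namespace Pool.Agent.N355.TF

open Set Pool.Agent.Helper167.Torus

theorem corner : CORNER_stm := by
  intro m j hj p hX hY hZ h0 hG
  have hm : 0 < m := by omega
  have hmr : (0 : ℝ) < m := by exact_mod_cast hm
  have hm0 : (m : ℝ) ≠ 0 := hmr.ne'
  obtain ⟨a, ha⟩ : ∃ a, a = cX p := ⟨_, rfl⟩
  obtain ⟨b, hb⟩ : ∃ b, b = cY p := ⟨_, rfl⟩
  obtain ⟨c, hc⟩ : ∃ c, c = cZ p := ⟨_, rfl⟩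
  have hGf : ∀ i : ℕ, G m i p = (m : ℝ) * (2 * m - 2 * i - 1) * a + (m : ℝ) * (2 * i + 1) * b +
      ((m : ℝ) * (2 * i + 1) - 2 * i * (i + 1)) * (c - 1 / 2) := by
    intro i
    rw [ha, hb, hc]
    rfl
  rw [hGf] at h0
  rw [← ha] at hX
  rw [← hb] at hY
  rw [← hc] at hZ
  -- the weights
  obtain ⟨mu, hmu⟩ : ∃ mu : ℝ, mu = ((m : ℝ) * (2 * m - 2 * j - 3) * a + (m : ℝ) * (2 * j + 3) * b +
      ((m : ℝ) * (2 * j + 3) - 2 * (j + 1) * (j + 2)) * (c - 1 / 2)) / 2 := ⟨_, rfl⟩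
  obtain ⟨nu, hnu⟩ : ∃ nu : ℝ, nu = ((m : ℝ) * (2 * m - 2 * j + 1) * a + (m : ℝ) * (2 * j - 1) * b +
      ((m : ℝ) * (2 * j - 1) - 2 * (j - 1) * j) * (c - 1 / 2)) / 2 := ⟨_, rfl⟩
  have hsum : 2 * c + mu + nu = 1 := by
    rw [hmu, hnu]
    linear_combination h0
  have hA : mu * (j : ℝ) ^ 2 + nu * ((j : ℝ) + 1) ^ 2 = 2 * (m : ℝ) ^ 2 * a := by
    rw [hmu, hnu]
    linear_combination ((2 * (j : ℝ) ^ 2 + 2 * j - 1) / 2) * h0
  have hB : mu * ((m : ℝ) - j) ^ 2 + nu * ((m : ℝ) - j - 1) ^ 2 = 2 * (m : ℝ) ^ 2 * b := by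
    rw [hmu, hnu]
    linear_combination ((2 * ((m : ℝ) - 1 - j) ^ 2 + 2 * ((m : ℝ) - 1 - j) - 1) / 2) * h0
  have hmu0 : 0 ≤ mu := by
    rcases Nat.lt_or_ge (j + 1) m with h | h
    · have h1 := hG (j + 1) h
      rw [hGf] at h1
      push_cast at h1
      rw [hmu]
      linarith
    · have h2 : (m : ℝ) = j + 1 := by
        have : m = j + 1 := by omega
        rw [this]
        push_cast
        ring
      have h3 : (m : ℝ) - j = 1 := by rw [h2]; ring
      have h4 : (m : ℝ) - j - 1 = 0 := by rw [h2]; ring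
      rw [h4, h3] at hB
      have h5 : mu = 2 * (m : ℝ) ^ 2 * b := by linarith
      rw [h5]
      positivity
  have hnu0 : 0 ≤ nu := by
    rcases Nat.eq_zero_or_pos j with h | h
    · have h2 : (j : ℝ) = 0 := by rw [h]; simp
      rw [h2] at hA
      have h5 : nu = 2 * (m : ℝ) ^ 2 * a := by linarith
      rw [h5]
      positivity
    · have h1 := hG (j - 1) (by omega)
      rw [hGf] at h1
      have h2 : ((j - 1 : ℕ) : ℝ) = (j : ℝ) - 1 := by
        rw [Nat.cast_sub h]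
        simp
      rw [h2] at h1
      rw [hnu]
      have h3 : (m : ℝ) * (2 * m - 2 * (j - 1) - 1) * a + (m : ℝ) * (2 * (j - 1) + 1) * b +
          ((m : ℝ) * (2 * (j - 1) + 1) - 2 * (j - 1) * (j - 1 + 1)) * (c - 1 / 2) =
          (m : ℝ) * (2 * m - 2 * j + 1) * a + (m : ℝ) * (2 * j - 1) * b +
          ((m : ℝ) * (2 * j - 1) - 2 * (j - 1) * j) * (c - 1 / 2) := by ring
      rw [h3] at h1
      linarith
  -- the points
  have hFV : FV m (15 + j) = {24, 25 + j, 25 + j + 1} := by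
    have h1 : ¬ (15 + j = 0) := by omega
    have h2 : ¬ (15 + j = 6) := by omega
    have h3 : ¬ (15 + j = 8) := by omega
    have h4 : ¬ (15 + j < 15) := by omega
    have h5 : 15 + j - 15 = j := by omega
    unfold FV
    rw [if_neg h1, if_neg h2, if_neg h3, if_neg h4, h5]
  have q1 : PT m 24 ∈ convexHull ℝ (SF m (15 + j) : Set E3) := by
    apply subset_convexHull
    rw [Finset.mem_coe, mem_SF]
    exact ⟨24, by rw [hFV]; simp, rfl⟩
  have q2 : PT m (25 + j) ∈ convexHull ℝ (SF m (15 + j) : Set E3) := by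
    apply subset_convexHull
    rw [Finset.mem_coe, mem_SF]
    exact ⟨25 + j, by rw [hFV]; simp, rfl⟩
  have q3 : PT m (25 + (j + 1)) ∈ convexHull ℝ (SF m (15 + j) : Set E3) := by
    apply subset_convexHull
    rw [Finset.mem_coe, mem_SF]
    exact ⟨25 + (j + 1), by rw [hFV]; simp [add_assoc], rfl⟩
  have hcomb : p = (2 * c) • PT m 24 + mu • PT m (25 + j) + nu • PT m (25 + (j + 1)) := by
    rw [PT_apex, PT_chain, PT_chain, cpt_comb3 _ _ _ _ _ _ _ _ _ _ _ _ hsum]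
    conv_lhs => rw [← cpt_coord p, ← ha, ← hb, ← hc]
    congr 1
    · push_cast
      field_simp
      linarith
    · push_cast
      field_simp
      have : mu * ((m : ℝ) - j) ^ 2 + nu * ((m : ℝ) - (j + 1)) ^ 2 = 2 * (m : ℝ) ^ 2 * b := by
        rw [← hB]
        ring
      linarith
    · ring
  rw [hcomb]
  have hconv := convex_convexHull ℝ (SF m (15 + j) : Set E3)
  have hs := hconv.sum_mem (t := Finset.univ) (w := ![2 * c, mu, nu])
    (z := ![PT m 24, PT m (25 + j), PT m (25 + (j + 1))])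
    (by intro i _; fin_cases i <;> simp <;> linarith)
    (by rw [Fin.sum_univ_three]; simpa using hsum)
    (by intro i _; fin_cases i; exacts [q1, q2, q3])
  rw [Fin.sum_univ_three] at hs
  simpa using hs

end Pool.Agent.N355.TF
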