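import Pool.Agent.N355.TF.SepOO

/-! Points of an old face beyond the cut. -/

set_option autoImplicit false

namespace Pool.Agent.N355.TF

open Set Pool.Agent.Helper167.Torus

theorem cut (hC : CORNER_stm) : CUT_stm := by
  intro m i hm hi p hp hG
  by_cases h4 : 4 ∈ fv i
  swap
  · refine convexHull_mono ?_ hp
    intro x hx
    obtain ⟨k, hk, rfl⟩ := (mem_PS _ _).1 (Finset.mem_coe.1 hx)
    refine Finset.mem_coe.2 (mem_SF.2 ⟨k, old_mem hi ?_ hk, PT_old (fv_lt hi hk)⟩)
    rintro rfl
    exact h4 hk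
  have hi12 : i < 12 := by
    have := (pairs_spec hi h4).1
    omega
  -- nonnegative corner coordinates of `p`
  have hin : ∀ f < 12, 0 ≤ ev (nf f) p := by
    have hin := chk_in
    rw [List.all_eq_true] at hin
    have hin := hin i (List.mem_range.2 hi)
    rw [List.all_eq_true] at hin
    intro f hf
    have h := hin f (List.mem_range.2 hf)
    rw [List.all_eq_true] at h
    exact hull_nonneg (nf f) (fv i) (fun v hv => by simpa using h v hv) hp
  have hX : 0 ≤ cX p := div_nonneg (hin 6 (by norm_num)) (by norm_num)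
  have hY : 0 ≤ cY p := div_nonneg (hin 0 (by norm_num)) (by norm_num)
  have hZ : 0 ≤ cZ p := div_nonneg (hin 8 (by norm_num)) (by norm_num)
  have hplane : ev (nf i) p = 0 := ev_zero_of_mem hi hp
  -- `p` is between the corner and the hull of the new face
  have hne : (SF m i : Set E3).Nonempty := by
    have h := (pairs_spec hi h4).1
    rcases h with rfl | rfl | rfl
    · exact ⟨_, Finset.mem_coe.2 (mem_SF.2 ⟨24, mem_FV0.2 (by simp), rfl⟩)⟩
    · exact ⟨_, Finset.mem_coe.2 (mem_SF.2 ⟨24, mem_FV6.2 (by simp), rfl⟩)⟩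
    · exact ⟨_, Finset.mem_coe.2 (mem_SF.2 ⟨3, mem_FV8.2 (by simp), rfl⟩)⟩
  have hp' : p ∈ convexHull ℝ (insert (pt (vert 4)) (SF m i : Set E3)) := by
    refine convexHull_mono ?_ hp
    intro x hx
    obtain ⟨k, hk, rfl⟩ := (mem_PS _ _).1 (Finset.mem_coe.1 hx)
    by_cases hk4 : k = 4
    · subst hk4
      exact Set.mem_insert _ _
    · exact Set.mem_insert_of_mem _
        (Finset.mem_coe.2 (mem_SF.2 ⟨k, old_mem hi hk4 hk, PT_old (fv_lt hi hk)⟩))
  rw [convexHull_insert hne, mem_convexJoin] at hp'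
  obtain ⟨v, hv, r, hr, a, b, ha, hb, hab, habp⟩ := hp'
  rw [Set.mem_singleton_iff] at hv
  subst hv
  rcases ha.eq_or_lt with ha0 | ha0
  · rw [← ha0, zero_smul, zero_add] at habp
    have : b = 1 := by linarith
    rw [this, one_smul] at habp
    rw [← habp]
    exact hr
  -- the first point beyond the cut
  have hk : ∀ j < m, 0 < gk m j / 2 := fun j hj => by have := gk_pos hj; linarith
  obtain ⟨j0, hj0, hmax⟩ := Finset.exists_max_image (Finset.range m)
    (fun j => (gk m j / 2) / (G m j p + gk m j / 2)) ⟨0, Finset.mem_range.2 hm⟩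
  rw [Finset.mem_range] at hj0
  set s := (gk m j0 / 2) / (G m j0 p + gk m j0 / 2) with hs
  have hden : ∀ j < m, 0 < G m j p + gk m j / 2 := fun j hj => by
    have := hk j hj
    have := hG j hj
    linarith
  have hs0 : 0 < s := div_pos (hk j0 hj0) (hden j0 hj0)
  have hs1 : s ≤ 1 := by
    rw [hs, div_le_one (hden j0 hj0)]
    have := hG j0 hj0
    linarith
  have hGc : ∀ j, G m j (cpt (s * cX p) (s * cY p) (s * cZ p)) =
      s * (G m j p + gk m j / 2) - gk m j / 2 := by
    intro j
    rw [G_cpt]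
    unfold G
    ring
  have hc : cpt (s * cX p) (s * cY p) (s * cZ p) ∈ convexHull ℝ (SF m (15 + j0) : Set E3) := by
    apply hC m j0 hj0
    · rw [cX_cpt]; positivity
    · rw [cY_cpt]; positivity
    · rw [cZ_cpt]; positivity
    · rw [hGc, hs, div_mul_cancel₀ _ (hden j0 hj0).ne']
      ring
    · intro j hj
      rw [hGc]
      have h := hmax j (Finset.mem_range.2 hj)
      rw [div_le_iff₀ (hden j hj)] at h
      linarith
  have hcv : cpt (s * cX p) (s * cY p) (s * cZ p) = (1 - s) • pt (vert 4) + s • p := by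
    rw [v4]
    conv_rhs => rw [← cpt_coord p]
    rw [cpt_add _ _ _ _ _ _ _ _ (by ring)]
    simp
  have hevv : ev (nf i) (pt (vert 4)) = 0 := by
    rw [ev_vert_eq_zero]
    exact (plane_spec i hi).1 4 h4
  have hevc : ev (nf i) (cpt (s * cX p) (s * cY p) (s * cZ p)) = 0 := by
    rw [hcv, ev_eq, map_add, map_smul, map_smul, smul_eq_mul, smul_eq_mul]
    rw [ev_eq] at hplane hevv
    linear_combination (1 - s) * hevv + s * hplane
  have hc2 : cpt (s * cX p) (s * cY p) (s * cZ p) ∈ convexHull ℝ (SF m i : Set E3) := by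
    refine hull_eq (s := SF m (15 + j0)) (-(lin (nf i))) ((nf i).w : ℝ) ?_ ?_ _ hc ?_
    · intro x hx
      obtain ⟨k, hk, rfl⟩ := mem_SF.1 hx
      have h := (ev_on_new hi12 hj0 hk).1
      rw [ev_eq] at h
      rw [neg_apply]
      linarith
    · intro x hx hl
      obtain ⟨k, hk, rfl⟩ := mem_SF.1 hx
      rw [neg_apply] at hl
      refine mem_SF.2 ⟨k, (ev_on_new hi12 hj0 hk).2 ?_, rfl⟩
      rw [ev_eq]
      linarith
    · rw [neg_apply]
      rw [ev_eq] at hevc
      linarith
  -- `p` is between `c` and `r`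
  have hD : 0 < 1 - s + a * s := by
    rcases hs1.eq_or_lt with h | h
    · rw [h]; linarith
    · have := mul_pos ha0 hs0
      linarith
  have hfin : p = (a / (1 - s + a * s)) • cpt (s * cX p) (s * cY p) (s * cZ p) +
      ((1 - s) * b / (1 - s + a * s)) • r := by
    have hb' : b = 1 - a := by linarith
    have e1 : (1 - s + a * s) • p = a • cpt (s * cX p) (s * cY p) (s * cZ p) +
        ((1 - s) * b) • r := by
      rw [hcv]
      conv_lhs => rw [add_smul, ← habp]
      rw [← habp]
      module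
    have e2 : p = (1 - s + a * s)⁻¹ • ((1 - s + a * s) • p) := by
      rw [smul_smul, inv_mul_cancel₀ hD.ne', one_smul]
    conv_lhs => rw [e2, e1]
    rw [smul_add, smul_smul, smul_smul]
    congr 2 <;> ring
  rw [hfin]
  apply (convex_convexHull ℝ (SF m i : Set E3)) hc2 hr
  · positivity
  · apply div_nonneg _ hD.le
    exact mul_nonneg (by linarith) hb
  · field_simp
    have hb' : b = 1 - a := by linarith
    rw [hb']; ring

end Pool.Agent.N355.TF
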