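import Pool.Agent.Helper167.TorusColor
import Pool.Agent.Helper167.TorusHomeo2

/-!
Polyhedral tori with `15 + m` faces whose faces cannot be coloured with four colours: the corner
`v = (0, 2, 12)` (vertex 4, on the faces 0, 6, 8) of the torus with 15 faces is replaced by `m`
triangles with a common apex (index 24) over a convex chain of points (indices 25, ..., 25 + m).
-/

set_option autoImplicit false

namespace Pool.Agent.N355.TF

open Set Pool.Agent.Helper167.Torus

/-- corner coordinates: `cX` is `0` on the face 6 and `1` at the vertex 3 -/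
noncomputable def cX (p : E3) : ℝ := ev (nf 6) p / 8
/-- `cY` is `0` on the face 0 and `1` at the vertex 23 -/
noncomputable def cY (p : E3) : ℝ := ev (nf 0) p / 36
/-- `cZ` is `0` on the face 8 and `1` at the vertex 5 -/
noncomputable def cZ (p : E3) : ℝ := ev (nf 8) p / 4

/-- the point with the corner coordinates `a, b, c` -/
noncomputable def cpt (a b c : ℝ) : E3 :=
  !₂[-4 * a + 18 * b, 2 + 8 * a - 4 * c, 12 - 2 * a - 9 * b]

noncomputable def gk (m j : ℕ) : ℝ := (m : ℝ) * (2 * j + 1) - 2 * j * (j + 1)

/-- the affine functional of the new face with number `j < m` -/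
noncomputable def G (m j : ℕ) (p : E3) : ℝ :=
  (m : ℝ) * (2 * m - 2 * j - 1) * cX p + (m : ℝ) * (2 * j + 1) * cY p + gk m j * (cZ p - 1 / 2)

/-- the linear part of `G m j` -/
noncomputable def lG (m j : ℕ) : E3 →L[ℝ] ℝ :=
  ((m : ℝ) * (2 * m - 2 * j - 1) / 8) • lin (nf 6) + ((m : ℝ) * (2 * j + 1) / 36) • lin (nf 0) +
    (gk m j / 4) • lin (nf 8)

/-- the constant term of `G m j` -/
noncomputable def kG (m j : ℕ) : ℝ :=
  (m : ℝ) * (2 * m - 2 * j - 1) * 3 + (m : ℝ) * (2 * j + 1) * 24 / 36 + gk m j * (26 / 4 - 1 / 2)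

/-- The vertices: the old ones, the apex (index 24) and the points of the chain (index `25 + t`,
`0 ≤ t ≤ m`). -/
noncomputable def PT (m k : ℕ) : E3 :=
  if k < 24 then pt (vert k)
  else if k = 24 then cpt 0 0 (1 / 2)
  else cpt (((k - 25 : ℕ) : ℝ) ^ 2 / (2 * m ^ 2)) (((m : ℝ) - ((k - 25 : ℕ) : ℝ)) ^ 2 / (2 * m ^ 2)) 0

/-- The vertex indices of the faces: the faces `i < 15` are the old ones with the corner `v` cut off,
the face `15 + j` is the triangle on the apex and the points `j, j + 1` of the chain. -/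
def FV (m i : ℕ) : Finset ℕ :=
  if i = 0 then {20, 22, 5, 3, 2, 1, 24, 25 + m}
  else if i = 6 then {6, 7, 8, 21, 23, 5, 24, 25}
  else if i = 8 then {23, 17, 3} ∪ (Finset.range (m + 1)).image (fun t => 25 + t)
  else if i < 15 then (fv i).toFinset
  else {24, 25 + (i - 15), 25 + (i - 15) + 1}

open Classical in
/-- The vertices of the face `i`. -/
noncomputable def SF (m i : ℕ) : Finset E3 := (FV m i).image (PT m)

end Pool.Agent.N355.TF
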