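import Pool.Agent.N355.TF.Stm

/-! Consequences of the parts: intersections, dimensions, coplanarity. -/

set_option autoImplicit false

namespace Pool.Agent.N355.TF

open Set Pool.Agent.Helper167.Torus

lemma Sep.symm {m i j : ℕ} (h : Sep m i j) : Sep m j i := by
  obtain ⟨l, c, h1, h2⟩ := h
  refine ⟨-l, -c, fun k hk => ?_, fun k hk => ?_⟩
  · obtain ⟨a, b⟩ := h2 k hk
    refine ⟨by simpa using a, fun h => b ?_⟩
    simpa using h
  · obtain ⟨a, b⟩ := h1 k hk
    refine ⟨by simpa using a, fun h => b ?_⟩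
    simpa using h

lemma sep_all (h1 : SEPOO_stm) (h2 : SEPON_stm) (h3 : SEPNN_stm) {m i j : ℕ} (hm : 0 < m)
    (hi : i < 15 + m) (hj : j < 15 + m) (hij : i ≠ j) : Sep m i j := by
  rcases lt_or_ge i 15 with hi' | hi' <;> rcases lt_or_ge j 15 with hj' | hj'
  · exact h1 m i j hm hi' hj' hij
  · obtain ⟨b, rfl⟩ := Nat.exists_eq_add_of_le hj'
    exact h2 m i b hm hi' (by omega)
  · obtain ⟨a, rfl⟩ := Nat.exists_eq_add_of_le hi'
    exact (h2 m j a hm hj' (by omega)).symm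
  · obtain ⟨a, rfl⟩ := Nat.exists_eq_add_of_le hi'
    obtain ⟨b, rfl⟩ := Nat.exists_eq_add_of_le hj'
    exact h3 m a b (by omega) (by omega) (by omega)

/-- the convex hull of a face -/
noncomputable abbrev CF (m i : ℕ) : Set E3 := convexHull ℝ (SF m i : Set E3)

open Classical in
/-- the common vertices -/
noncomputable def CM (m i j : ℕ) : Finset E3 := (FV m i ∩ FV m j).image (PT m)

lemma mem_CM {m i j : ℕ} {p : E3} : p ∈ CM m i j ↔ ∃ k, k ∈ FV m i ∧ k ∈ FV m j ∧ PT m k = p := by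
  classical
  simp [CM, and_assoc]

lemma sep_inter {m i j : ℕ} (h : Sep m i j) :
    CF m i ∩ CF m j = convexHull ℝ (CM m i j : Set E3) := by
  obtain ⟨l, c, h1, h2⟩ := h
  apply hull_inter l c
  · intro x hx
    obtain ⟨k, hk, rfl⟩ := mem_SF.1 hx
    exact (h1 k hk).1
  · intro x hx
    obtain ⟨k, hk, rfl⟩ := mem_SF.1 hx
    exact (h2 k hk).1
  · intro x hx
    obtain ⟨k, hk, -, rfl⟩ := mem_CM.1 hx
    exact mem_SF.2 ⟨k, hk, rfl⟩
  · intro x hx
    obtain ⟨k, -, hk, rfl⟩ := mem_CM.1 hx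
    exact mem_SF.2 ⟨k, hk, rfl⟩
  · intro x hx hl
    obtain ⟨k, hk, rfl⟩ := mem_SF.1 hx
    exact mem_CM.2 ⟨k, hk, (h1 k hk).2 hl, rfl⟩

lemma sep_exposed {m i j : ℕ} (h : Sep m i j) : IsExposed ℝ (CF m i) (CF m i ∩ CF m j) := by
  obtain ⟨l, c, h1, h2⟩ := h
  apply hull_exposed (u := CM m i j) l c
  · intro x hx
    obtain ⟨k, hk, rfl⟩ := mem_SF.1 hx
    exact (h1 k hk).1
  · intro x hx
    obtain ⟨k, hk, rfl⟩ := mem_SF.1 hx
    exact (h2 k hk).1
  · intro x hx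
    obtain ⟨k, -, hk, rfl⟩ := mem_CM.1 hx
    exact mem_SF.2 ⟨k, hk, rfl⟩
  · intro x hx hl
    obtain ⟨k, hk, rfl⟩ := mem_SF.1 hx
    exact mem_CM.2 ⟨k, hk, (h1 k hk).2 hl, rfl⟩

lemma finrank_le_one_of_subset {s : Set E3} {a b : E3} (h : s ⊆ {a, b}) :
    Module.finrank ℝ (vectorSpan ℝ s) ≤ 1 := by
  refine (Submodule.finrank_mono (vectorSpan_mono ℝ h)).trans ?_
  by_cases hab : a = b
  · subst hab
    rw [Set.pair_eq_singleton, vectorSpan_singleton, finrank_bot]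
    exact zero_le_one
  · exact (finrank_pair hab).le

lemma inter_le_one (hC : COM_stm) {m i j : ℕ} (hm : 0 < m) (hi : i < 15 + m) (hj : j < 15 + m)
    (hij : i ≠ j) (h : Sep m i j) :
    Module.finrank ℝ (vectorSpan ℝ (CF m i ∩ CF m j)) ≤ 1 := by
  rw [sep_inter h, vspan_hull]
  obtain ⟨a, b, hab⟩ := hC m i j hm hi hj hij
  apply finrank_le_one_of_subset (a := PT m a) (b := PT m b)
  intro x hx
  obtain ⟨k, h1, h2, rfl⟩ := mem_CM.1 (Finset.mem_coe.1 hx)
  rcases hab k h1 h2 with rfl | rfl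
  · exact Or.inl rfl
  · exact Or.inr rfl

/-- two distinct common vertices give a common edge -/
lemma inter_eq_one {m i j a b : ℕ} (h : Module.finrank ℝ (vectorSpan ℝ (CF m i ∩ CF m j)) ≤ 1)
    (hab : PT m a ≠ PT m b) (h1 : a ∈ FV m i) (h2 : a ∈ FV m j) (h3 : b ∈ FV m i)
    (h4 : b ∈ FV m j) : Module.finrank ℝ (vectorSpan ℝ (CF m i ∩ CF m j)) = 1 := by
  apply le_antisymm h
  rw [← finrank_pair hab]
  apply Submodule.finrank_mono
  apply vectorSpan_mono
  rintro x (rfl | rfl)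
  · exact ⟨subset_convexHull _ _ (Finset.mem_coe.2 (mem_SF.2 ⟨a, h1, rfl⟩)),
      subset_convexHull _ _ (Finset.mem_coe.2 (mem_SF.2 ⟨a, h2, rfl⟩))⟩
  · exact ⟨subset_convexHull _ _ (Finset.mem_coe.2 (mem_SF.2 ⟨b, h3, rfl⟩)),
      subset_convexHull _ _ (Finset.mem_coe.2 (mem_SF.2 ⟨b, h4, rfl⟩))⟩

/-- a common edge gives two distinct common vertices -/
lemma two_common {m i j : ℕ} (h : Sep m i j)
    (h1 : Module.finrank ℝ (vectorSpan ℝ (CF m i ∩ CF m j)) = 1) :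
    ∃ a b, a ≠ b ∧ a ∈ FV m i ∧ b ∈ FV m i ∧ a ∈ FV m j ∧ b ∈ FV m j := by
  by_contra hcon
  push Not at hcon
  rw [sep_inter h, vspan_hull] at h1
  have h2 : ∀ x ∈ (CM m i j : Set E3), ∀ y ∈ (CM m i j : Set E3), x = y := by
    intro x hx y hy
    obtain ⟨k, a1, a2, rfl⟩ := mem_CM.1 (Finset.mem_coe.1 hx)
    obtain ⟨k', b1, b2, rfl⟩ := mem_CM.1 (Finset.mem_coe.1 hy)
    by_cases hk : k = k'
    · rw [hk]
    · exact absurd b2 (hcon k k' hk a1 b1 a2)
  have h3 : vectorSpan ℝ (CM m i j : Set E3) = ⊥ :=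
    vectorSpan_of_subsingleton ℝ (fun x hx y hy => h2 x hx y hy)
  rw [h3, finrank_bot] at h1
  exact absurd h1 (by norm_num)

lemma not_cop (hR : RANK_stm) (hP : PLANE_stm) {m i j : ℕ} (hm : 0 < m) (hi : i < 15 + m)
    (hj : j < 15 + m) (hij : i ≠ j) : ¬ Coplanar ℝ (CF m i ∪ CF m j) := by
  intro hcop
  rw [coplanar_iff_finrank_le_two] at hcop
  set W := vectorSpan ℝ (CF m i ∪ CF m j) with hW
  have hle : vectorSpan ℝ (CF m i) ≤ W := vectorSpan_mono ℝ Set.subset_union_left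
  have heq : vectorSpan ℝ (CF m i) = W := by
    apply Submodule.eq_of_le_of_finrank_le hle
    rw [hR m i hm hi]
    exact hcop
  obtain ⟨l, c, hl, hne⟩ := hP m i hm hi
  obtain ⟨k, hk, hkc⟩ := hne j hj hij.symm
  have hker : vectorSpan ℝ (CF m i) ≤ LinearMap.ker l.toLinearMap := by
    rw [vspan_hull, vectorSpan_def, Submodule.span_le]
    rintro _ ⟨p, hp, q, hq, rfl⟩
    obtain ⟨a, ha, rfl⟩ := mem_SF.1 (Finset.mem_coe.1 hp)
    obtain ⟨b, hb, rfl⟩ := mem_SF.1 (Finset.mem_coe.1 hq)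
    simp only [vsub_eq_sub, SetLike.mem_coe, LinearMap.mem_ker, ContinuousLinearMap.coe_coe,
      map_sub]
    rw [hl a ha, hl b hb, sub_self]
  -- a vertex of the face `i`
  have hne' : (FV m i).Nonempty := by
    by_contra hcon
    rw [Finset.not_nonempty_iff_eq_empty] at hcon
    have h2 := hR m i hm hi
    have h3 : (SF m i : Set E3) = ∅ := by
      ext x
      simp only [Finset.mem_coe, mem_SF, hcon, Finset.notMem_empty, false_and, exists_false,
        Set.mem_empty_iff_false]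
    rw [h3, convexHull_empty, vectorSpan_empty, finrank_bot] at h2
    exact absurd h2 (by norm_num)
  obtain ⟨a, ha⟩ := hne'
  have hvW : PT m k - PT m a ∈ W := by
    apply vsub_mem_vectorSpan
    · right
      exact subset_convexHull _ _ (Finset.mem_coe.2 (mem_SF.2 ⟨k, hk, rfl⟩))
    · left
      exact subset_convexHull _ _ (Finset.mem_coe.2 (mem_SF.2 ⟨a, ha, rfl⟩))
  rw [← heq] at hvW
  have h5 := hker hvW
  rw [LinearMap.mem_ker, ContinuousLinearMap.coe_coe, map_sub, hl a ha, sub_eq_zero] at h5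
  exact hkc h5

lemma compact_union (m : ℕ) : IsCompact (⋃ i : Fin (15 + m), CF m i) := by
  apply isCompact_iUnion
  intro i
  exact (SF m i).finite_toSet.isCompact_convexHull ℝ

end Pool.Agent.N355.TF
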