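import Pool.Agent.N355.TF.Stm

/-! The union of the faces is homeomorphic to the product of two circles. (Adapted from the starting
file Helper167/TorusHomeo2.lean, with the additional functionals `G m j`.) -/

set_option autoImplicit false

namespace Pool.Agent.N355.TF

open Set Pool.Agent.Helper167.Torus

variable {m : ℕ} {U : Set E3}

/-- linear coefficients of `G m j` -/
noncomputable def gx (m j : ℕ) : ℝ := -(m : ℝ) * (2 * m - 2 * j - 1) / 8 + (m : ℝ) * (2 * j + 1) / 36 - gk m j / 4
noncomputable def gy (m j : ℕ) : ℝ := -gk m j / 4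
noncomputable def gz (m j : ℕ) : ℝ := -2 * (m : ℝ) * (2 * m - 2 * j - 1) / 8 - 2 * (m : ℝ) * (2 * j + 1) / 36 - 2 * gk m j / 4

lemma G_lin (m j : ℕ) (p : E3) : G m j p = gx m j * p 0 + gy m j * p 1 + gz m j * p 2 + kG m j := by
  unfold G gx gy gz kG
  rw [cX_eq, cY_eq, cZ_eq]
  ring

/-- the value of `G m j` at coordinates -/
noncomputable def gv (m j : ℕ) (x y z : ℝ) : ℝ := gx m j * x + gy m j * y + gz m j * z + kG m j

lemma G_gv (m j : ℕ) (p : E3) : G m j p = gv m j (p 0) (p 1) (p 2) := G_lin m j p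

lemma centre_pos_G {m j : ℕ} (hj : j < m) (y z : ℝ) (h : rg y z ≤ 6) : 0 < gv m j 0 y z := by
  obtain ⟨h1, h2, h3⟩ := (rg_le _ _ _).1 h
  have hp : gv m j 0 y z = G m j !₂[0, y, z] := by
    rw [G_gv]
    simp
  rw [hp]
  apply G_pos_of hj
  · rw [cX_eq]; simp; linarith
  · rw [cY_eq]; simp; linarith
  · rw [cZ_eq]; simp; linarith
  · left; rw [cX_eq]; simp; linarith


lemma A_neT (hU : IsUnion m U) {p : E3} (hp : p ∈ U) : (⟨p 1, p 2⟩ : ℂ) ≠ 0 := by
  intro h
  have h1 : p 1 = 0 := congrArg Complex.re h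
  have h2 : p 2 = 0 := congrArg Complex.im h
  have h3 := ((hU p).1 hp).2.2.1
  unfold rr at h3
  rw [h1, h2] at h3
  norm_num at h3

lemma B_neT (hU : IsUnion m U) {p : E3} (hp : p ∈ U) : (⟨p 0, rr p - 6⟩ : ℂ) ≠ 0 := by
  intro h
  have h1 : p 0 = 0 := congrArg Complex.re h
  have h2 : rr p - 6 = 0 := congrArg Complex.im h
  obtain ⟨-, -, -, h3⟩ := (hU p).1 hp
  rcases h3 with ⟨i, hi, h0⟩ | ⟨j, hj, h0⟩ | h3
  · have hc := centre_pos (p 1) (p 2) (by rw [← rr_eq]; linarith) i hi
    rw [ev_evc, h1] at h0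
    linarith
  · have hc := centre_pos_G hj (p 1) (p 2) (by rw [← rr_eq]; linarith)
    rw [G_gv, h1] at h0
    linarith
  · linarith

/-- The map to the product of two circles. -/
noncomputable def ggT (hU : IsUnion m U) (p : U) : Circle × Circle :=
  (nrm ⟨⟨p.1 1, p.1 2⟩, A_neT hU p.2⟩, nrm ⟨⟨p.1 0, rr p.1 - 6⟩, B_neT hU p.2⟩)

lemma continuous_ggT (hU : IsUnion m U) : Continuous (ggT hU) := by
  unfold ggT
  apply Continuous.prodMk
  · apply continuous_nrm.comp
    apply Continuous.subtype_mk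
    simp only [mk_eq]
    fun_prop
  · apply continuous_nrm.comp
    apply Continuous.subtype_mk
    simp only [mk_eq]
    have h : Continuous (fun p : U => rr p.1) := continuous_rr.comp continuous_subtype_val
    fun_prop

/-- Key comparison: if `q` lies on the ray through `p` from the centre with ratio `σ`, and both are
in the union, then the ratio is at most one. -/
lemma ray_leT (hU : IsUnion m U) {p q : E3} (hp : p ∈ U) (hq : q ∈ U) {μ σ : ℝ} (hμ : 0 < μ)
    (h1 : q 1 = μ * p 1) (h2 : q 2 = μ * p 2) (h0 : q 0 = σ * p 0)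
    (hr : rr q - 6 = σ * (rr p - 6)) : σ ≤ 1 := by
  have hrp := ((hU p).1 hp).2.2.1
  have hrpos : 0 < rr p := by linarith
  have hmu : rr q = μ * rr p := by
    rw [rr_eq, rr_eq, h1, h2, rg_mul _ _ _ hμ.le]
  obtain ⟨hq1, hq1G, hq2, -⟩ := (hU q).1 hq
  obtain ⟨-, -, -, h3⟩ := (hU p).1 hp
  have hcc : rg (6 / rr p * p 1) (6 / rr p * p 2) ≤ 6 := by
    rw [rg_mul _ _ _ (by positivity), ← rr_eq]
    rw [div_mul_cancel₀ _ hrpos.ne']
  have hmu2 : μ = σ + (1 - σ) * (6 / rr p) := by
    field_simp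
    linarith
  rcases h3 with ⟨i, hi, hi0⟩ | ⟨j, hj, hj0⟩ | h3
  · have hc := centre_pos (6 / rr p * p 1) (6 / rr p * p 2) hcc i hi
    have hqi := hq1 i hi
    rw [ev_evc] at hi0 hqi
    unfold evc at hi0 hqi hc
    rw [h0, h1, h2] at hqi
    set c := 6 / rr p with hcdef
    have key : ((nf i).x : ℝ) * (σ * p 0) + (nf i).y * (μ * p 1) + (nf i).z * (μ * p 2) + (nf i).w
        = (1 - σ) * ((nf i).x * 0 + (nf i).y * (c * p 1) + (nf i).z * (c * p 2) + (nf i).w) := by
      rw [hmu2]
      linear_combination σ * hi0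
    rw [key] at hqi
    by_contra hσ
    push Not at hσ
    have := mul_neg_of_neg_of_pos (show 1 - σ < 0 by linarith) hc
    linarith
  · have hc := centre_pos_G hj (6 / rr p * p 1) (6 / rr p * p 2) hcc
    have hqi := hq1G j hj
    rw [G_gv] at hj0 hqi
    unfold gv at hj0 hqi hc
    rw [h0, h1, h2] at hqi
    set c := 6 / rr p with hcdef
    have key : gx m j * (σ * p 0) + gy m j * (μ * p 1) + gz m j * (μ * p 2) + kG m j
        = (1 - σ) * (gx m j * 0 + gy m j * (c * p 1) + gz m j * (c * p 2) + kG m j) := by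
      rw [hmu2]
      linear_combination σ * hj0
    rw [key] at hqi
    by_contra hσ
    push Not at hσ
    have := mul_neg_of_neg_of_pos (show 1 - σ < 0 by linarith) hc
    linarith
  · rw [h3] at hr
    linarith

lemma injective_ggT (hU : IsUnion m U) : Function.Injective (ggT hU) := by
  intro p q hpq
  unfold ggT at hpq
  rw [Prod.mk.injEq] at hpq
  obtain ⟨hA, hB⟩ := hpq
  obtain ⟨μ, hμ, h1, h2⟩ := nrm_eq _ _ hA
  obtain ⟨σ, hσ, h0, hr⟩ := nrm_eq _ _ hB
  simp only at h1 h2 h0 hr
  have hle := ray_leT hU p.2 q.2 hμ h1 h2 h0 hr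
  have hge := ray_leT hU q.2 p.2 (μ := μ⁻¹) (σ := σ⁻¹) (by positivity)
    (by rw [h1]; field_simp) (by rw [h2]; field_simp) (by rw [h0]; field_simp)
    (by rw [hr]; field_simp)
  have hσ1 : σ = 1 := by
    apply le_antisymm hle
    rwa [inv_le_one₀ hσ] at hge
  rw [hσ1, one_mul] at h0 hr
  have hmu : rr q.1 = μ * rr p.1 := by
    rw [rr_eq, rr_eq, h1, h2, rg_mul _ _ _ hμ.le]
  have hrpos : 0 < rr p.1 := by linarith [((hU _).1 p.2).2.2.1]
  have hμ1 : μ = 1 := by
    have : (μ - 1) * rr p.1 = 0 := by linarith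
    rcases mul_eq_zero.1 this with h | h
    · linarith
    · exact absurd h hrpos.ne'
  rw [hμ1, one_mul] at h1 h2
  apply Subtype.ext
  ext i
  fin_cases i
  · exact h0.symm
  · exact h1.symm
  · exact h2.symm

lemma surjective_ggT (hU : IsUnion m U) : Function.Surjective (ggT hU) := by
  rintro ⟨ω, ν⟩
  set dy := (ω : ℂ).re with hdy
  set dz := (ω : ℂ).im with hdz
  set α := (ν : ℂ).re with hα
  set β := (ν : ℂ).im with hβ
  have hd : ¬ (dy = 0 ∧ dz = 0) := by
    rintro ⟨h1, h2⟩
    exact Circle.coe_ne_zero ω (Complex.ext h1 h2)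
  have hν : ¬ (α = 0 ∧ β = 0) := by
    rintro ⟨h1, h2⟩
    exact Circle.coe_ne_zero ν (Complex.ext h1 h2)
  have hrd := rg_pos dy dz hd
  set R := rg dy dz with hR
  set ey := dy / R with hey
  set ez := dz / R with hez
  have hre : rg ey ez = 1 := by
    have h1 : ey = R⁻¹ * dy := by rw [hey]; ring
    have h2 : ez = R⁻¹ * dz := by rw [hez]; ring
    rw [h1, h2, rg_mul _ _ _ (by positivity), ← hR]
    exact inv_mul_cancel₀ hrd.ne'
  have hre6 : rg (6 * ey) (6 * ez) = 6 := by
    rw [rg_mul _ _ _ (by norm_num), hre]; norm_num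
  -- constraints
  have hKpos := centre_pos (6 * ey) (6 * ez) hre6.le
  set K : Fin (13 + m) → ℝ := fun c => if c.1 < 12 then evc (nf c.1) 0 (6 * ey) (6 * ez) else
    if c.1 = 12 then 3 else gv m (c.1 - 13) 0 (6 * ey) (6 * ez) with hK
  set N : Fin (13 + m) → ℝ := fun c => if c.1 < 12 then
    (nf c.1).x * α + (nf c.1).y * (β * ey) + (nf c.1).z * (β * ez) else
    if c.1 = 12 then β else
      gx m (c.1 - 13) * α + gy m (c.1 - 13) * (β * ey) + gz m (c.1 - 13) * (β * ez) with hN
  have hKp : ∀ c, 0 < K c := by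
    intro c
    simp only [hK]
    split_ifs with h h'
    · exact hKpos c.1 h
    · norm_num
    · exact centre_pos_G (by have := c.2; omega) _ _ hre6.le
  have hNn : ∃ c, N c < 0 := by
    by_contra hcon
    push Not at hcon
    have hb : 0 ≤ β := by
      have := hcon ⟨12, by omega⟩
      simpa [hN] using this
    have hbd := bounded_dir α (β * ey) (β * ez) (fun f hf => by
      have := hcon ⟨f, by omega⟩
      simp only [hN] at this
      rwa [if_pos hf] at this)
    apply hν
    refine ⟨hbd.1, ?_⟩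
    have h3 : rg (β * ey) (β * ez) = β * 1 := by rw [rg_mul _ _ _ hb, hre]
    rw [hbd.2.1, hbd.2.2] at h3
    have h4 : rg 0 0 = 0 := by simp [rg]
    rw [h4] at h3
    linarith
  obtain ⟨s, hs, hall, c0, hc0⟩ := first_hit K N hKp hNn
  have hbeta : 3 ≤ 6 + s * β := by
    have := hall ⟨12, by omega⟩
    simp only [hK, hN] at this
    norm_num at this
    linarith
  set q : E3 := !₂[s * α, (6 + s * β) * ey, (6 + s * β) * ez] with hq
  have q0 : q 0 = s * α := by simp [hq]
  have q1 : q 1 = (6 + s * β) * ey := by simp [hq]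
  have q2 : q 2 = (6 + s * β) * ez := by simp [hq]
  have hrq : rr q = 6 + s * β := by
    rw [rr_eq, q1, q2, rg_mul _ _ _ (by linarith), hre, mul_one]
  have hev : ∀ c : Fin (13 + m), c.1 < 12 → ev (nf c.1) q = K c + s * N c := by
    intro c hc
    rw [ev_evc, q0, q1, q2]
    simp only [hK, hN, if_pos hc]
    unfold evc
    ring
  have hevG : ∀ c : Fin (13 + m), 13 ≤ c.1 → G m (c.1 - 13) q = K c + s * N c := by
    intro c hc
    have h1 : ¬ c.1 < 12 := by omega
    have h2 : ¬ c.1 = 12 := by omega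
    rw [G_gv, q0, q1, q2]
    simp only [hK, hN, if_neg h1, if_neg h2]
    unfold gv
    ring
  have hqU : q ∈ U := by
    rw [hU q]
    refine ⟨?_, ?_, ?_, ?_⟩
    · intro f hf
      have h := hall ⟨f, by omega⟩
      rw [← hev ⟨f, by omega⟩ hf] at h
      exact h
    · intro j hj
      have h := hall ⟨13 + j, by omega⟩
      rw [← hevG ⟨13 + j, by omega⟩ (by simp)] at h
      simpa using h
    · rw [hrq]; exact hbeta
    · rcases lt_or_ge c0.1 12 with h | h
      · left
        refine ⟨c0.1, h, ?_⟩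
        rw [hev c0 h]
        exact hc0
      · right
        rcases eq_or_ne c0.1 12 with h' | h'
        · right
          have h'' : ¬ c0.1 < 12 := by omega
          simp only [hK, hN, if_neg h'', if_pos h'] at hc0
          rw [hrq]
          linarith
        · left
          refine ⟨c0.1 - 13, by have := c0.2; omega, ?_⟩
          rw [hevG c0 (by omega)]
          exact hc0
  refine ⟨⟨q, hqU⟩, ?_⟩
  unfold ggT
  rw [Prod.mk.injEq]
  constructor
  · apply nrm_of _ ω ((6 + s * β) / R) (div_pos (by linarith) hrd)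
    · simp only
      rw [q1, hey, ← hdy]
      ring
    · simp only
      rw [q2, hez, ← hdz]
      ring
  · apply nrm_of _ ν s hs
    · simp only
      rw [q0]
    · simp only
      rw [hrq]
      ring

theorem homeo : HOMEO_stm := by
  intro m U hc hU
  have : CompactSpace ↥U := isCompact_iff_compactSpace.1 hc
  let e : ↥U ≃ Circle × Circle := Equiv.ofBijective (ggT hU) ⟨injective_ggT hU, surjective_ggT hU⟩
  have he : Continuous e := continuous_ggT hU
  let h1 : ↥U ≃ₜ Circle × Circle := he.homeoOfEquivCompactToT2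
  let h2 : AddCircle (1 : ℝ) ≃ₜ Circle := AddCircle.homeomorphCircle one_ne_zero
  exact ⟨h1.trans (h2.symm.prodCongr h2.symm)⟩

end Pool.Agent.N355.TF
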