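import Pool.Agent.N355.TF.SepNew

/-! Separating functionals of old faces; adjacent old faces stay adjacent. -/

set_option autoImplicit false

namespace Pool.Agent.N355.TF

open Set Pool.Agent.Helper167.Torus

lemma old_mem {m j k : ℕ} (hj : j < 15) (h4 : k ≠ 4) (hk : k ∈ fv j) : k ∈ FV m j := by
  by_cases h0 : j = 0
  · subst h0
    rw [fv0] at hk
    rw [mem_FV0]
    simp only [List.mem_cons, List.not_mem_nil, or_false] at hk
    omega
  by_cases h6 : j = 6
  · subst h6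
    rw [fv6] at hk
    rw [mem_FV6]
    simp only [List.mem_cons, List.not_mem_nil, or_false] at hk
    omega
  by_cases h8 : j = 8
  · subst h8
    rw [fv8] at hk
    rw [mem_FV8]
    simp only [List.mem_cons, List.not_mem_nil, or_false] at hk
    rcases hk with h | h | h | h
    · exact absurd h h4
    · exact Or.inl h
    · exact Or.inr (Or.inl h)
    · exact Or.inr (Or.inr (Or.inl h))
  · exact (mem_FVold hj h0 h6 h8).2 hk

lemma chk_pairs : ((List.range 15).all fun j =>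
    (decide (4 ∉ fv j) || j == 0 || j == 6 || j == 8) &&
    (decide (4 ∉ fv j) || decide (5 ∉ fv j) || j == 0 || j == 6) &&
    (decide (4 ∉ fv j) || decide (3 ∉ fv j) || j == 0 || j == 8) &&
    (decide (4 ∉ fv j) || decide (23 ∉ fv j) || j == 6 || j == 8)) = true := by
  decide +kernel

lemma pairs_spec {j : ℕ} (hj : j < 15) (h4 : 4 ∈ fv j) : (j = 0 ∨ j = 6 ∨ j = 8) ∧
    (5 ∈ fv j → j = 0 ∨ j = 6) ∧ (3 ∈ fv j → j = 0 ∨ j = 8) ∧ (23 ∈ fv j → j = 6 ∨ j = 8) := by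
  have h := chk_pairs
  rw [List.all_eq_true] at h
  have h1 := h j (List.mem_range.2 hj)
  simp only [Bool.and_eq_true, Bool.or_eq_true, beq_iff_eq, decide_eq_true_eq] at h1
  tauto

lemma ev_PT_nonpos {m i j : ℕ} (hm : 0 < m) (hi : i < 15) (hj : j < 15) (f : V4)
    (H : ∀ v ∈ fv i, dot f (vert v) ≤ 0 ∧ (dot f (vert v) = 0 → v ∈ fv j)) :
    ∀ k ∈ FV m i, ev f (PT m k) ≤ 0 ∧ (ev f (PT m k) = 0 → k ∈ FV m j) := by
  have hmR : (0 : ℝ) < m := by exact_mod_cast hm
  have hv : ∀ v ∈ fv i, ev f (pt (vert v)) ≤ 0 ∧ (ev f (pt (vert v)) = 0 → v ∈ fv j) := by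
    intro v hv
    refine ⟨ev_vert_nonpos _ _ (H v hv).1, fun h => (H v hv).2 ?_⟩
    rwa [ev_vert_eq_zero] at h
  intro k hk
  rcases FV_cases hi hk with ⟨h1, h2, h3⟩ | ⟨rfl, h⟩ | ⟨t, ht, rfl, h⟩
  · rw [PT_old h1]
    exact ⟨(hv k h3).1, fun h => old_mem hj h2 ((hv k h3).2 h)⟩
  · have h4 : 4 ∈ fv i := by rcases h with rfl | rfl <;> decide +kernel
    have h5 : 5 ∈ fv i := by rcases h with rfl | rfl <;> decide +kernel
    obtain ⟨a4, b4⟩ := hv 4 h4
    obtain ⟨a5, b5⟩ := hv 5 h5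
    rw [PT_apex, ev_cpt]
    refine ⟨by linarith, fun h' => ?_⟩
    have e4 : ev f (pt (vert 4)) = 0 := by linarith
    have e5 : ev f (pt (vert 5)) = 0 := by linarith
    rcases (pairs_spec hj (b4 e4)).2.1 (b5 e5) with rfl | rfl
    · exact mem_FV0.2 (by simp)
    · exact mem_FV6.2 (by simp)
  · obtain ⟨w1, w2, w3⟩ := chain_w hm ht
    have h4 : 4 ∈ fv i := by rcases h with ⟨rfl, -⟩ | ⟨rfl, -⟩ | rfl <;> decide +kernel
    obtain ⟨a4, b4⟩ := hv 4 h4
    -- vertices with positive weight belong to the face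
    have h3 : 0 < t → 3 ∈ fv i := by
      intro ht0
      rcases h with ⟨rfl, -⟩ | ⟨-, h⟩ | rfl
      · decide +kernel
      · omega
      · decide +kernel
    have h23 : t < m → 23 ∈ fv i := by
      intro ht0
      rcases h with ⟨-, h⟩ | ⟨rfl, -⟩ | rfl
      · omega
      · decide +kernel
      · decide +kernel
    rw [PT_chain, ev_cpt]
    set a := (t : ℝ) ^ 2 / (2 * m ^ 2) with ha
    set b := ((m : ℝ) - t) ^ 2 / (2 * m ^ 2) with hb
    have ta : a * ev f (pt (vert 3)) ≤ 0 ∧ (a * ev f (pt (vert 3)) = 0 → 0 < t → 3 ∈ fv j) := by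
      rcases Nat.eq_zero_or_pos t with h0 | h0
      · subst h0
        refine ⟨?_, fun _ h => absurd h (lt_irrefl 0)⟩
        rw [ha]; simp
      · obtain ⟨a3, b3⟩ := hv 3 (h3 h0)
        refine ⟨mul_nonpos_of_nonneg_of_nonpos w1 a3, fun h' _ => b3 ?_⟩
        have : 0 < a := by
          have : (0 : ℝ) < t := by exact_mod_cast h0
          positivity
        exact (mul_eq_zero.1 h').resolve_left this.ne'
    have tb : b * ev f (pt (vert 23)) ≤ 0 ∧ (b * ev f (pt (vert 23)) = 0 → t < m → 23 ∈ fv j) := by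
      rcases ht.eq_or_lt with h0 | h0
      · subst h0
        refine ⟨?_, fun _ h => absurd h (lt_irrefl _)⟩
        rw [hb]; simp
      · obtain ⟨a3, b3⟩ := hv 23 (h23 h0)
        refine ⟨mul_nonpos_of_nonneg_of_nonpos w2 a3, fun h' _ => b3 ?_⟩
        have : 0 < b := by
          have : (0 : ℝ) < m - t := by
            have : (t : ℝ) < m := by exact_mod_cast h0
            linarith
          positivity
        exact (mul_eq_zero.1 h').resolve_left this.ne'
    have tc : (1 - a - b - 0) * ev f (pt (vert 4)) ≤ 0 ∧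
        ((1 - a - b - 0) * ev f (pt (vert 4)) = 0 → 4 ∈ fv j) := by
      have hp : 0 < 1 - a - b - 0 := by linarith
      exact ⟨mul_nonpos_of_nonneg_of_nonpos hp.le a4,
        fun h' => b4 ((mul_eq_zero.1 h').resolve_left hp.ne')⟩
    refine ⟨by linarith [ta.1, tb.1, tc.1], fun h' => ?_⟩
    have z1 : a * ev f (pt (vert 3)) = 0 := by linarith [ta.1, tb.1, tc.1]
    have z2 : b * ev f (pt (vert 23)) = 0 := by linarith [ta.1, tb.1, tc.1]
    have z3 : (1 - a - b - 0) * ev f (pt (vert 4)) = 0 := by linarith [ta.1, tb.1, tc.1]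
    obtain ⟨p1, -, p3, p4⟩ := pairs_spec hj (tc.2 z3)
    have q3 := ta.2 z1
    have q23 := tb.2 z2
    rcases p1 with rfl | rfl | rfl
    · -- j = 0
      have : ¬ t < m := fun h => by have := p4 (q23 h); omega
      have : t = m := by omega
      rw [mem_FV0]; omega
    · have : ¬ 0 < t := fun h => by have := p3 (q3 h); omega
      have : t = 0 := by omega
      rw [mem_FV6]; omega
    · exact mem_FV8.2 (Or.inr (Or.inr (Or.inr ⟨t, ht, rfl⟩)))

theorem sepOO : SEPOO_stm := by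
  intro m i j hm hi hj hij
  obtain ⟨h1, h2⟩ := sep_spec i j hi hj hij
  have k1 := ev_PT_nonpos hm hi hj (sep i j) h1
  have k2 := ev_PT_nonpos hm hj hi (ng (sep i j)) (fun v hv => by
    rw [dot_ng]
    obtain ⟨a, b⟩ := h2 v hv
    exact ⟨by linarith, fun h => b (by linarith)⟩)
  refine ⟨lin (sep i j), -(sep i j).w, fun k hk => ?_, fun k hk => ?_⟩
  · obtain ⟨a, b⟩ := k1 k hk
    have e := ev_eq (sep i j) (PT m k)
    exact ⟨by linarith, fun h => b (by linarith)⟩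
  · obtain ⟨a, b⟩ := k2 k hk
    rw [ev_ng] at a b
    have e := ev_eq (sep i j) (PT m k)
    exact ⟨by linarith, fun h => b (by linarith)⟩

lemma PT_ne_of_cX {m a b : ℕ} (h : cX (PT m a) ≠ cX (PT m b)) : PT m a ≠ PT m b :=
  fun h' => h (by rw [h'])

theorem adjOO : ADJ_stm := by
  intro m i j hm hi hj hij ha
  have hmR : (0 : ℝ) < m := by exact_mod_cast hm
  have ne1 : PT m 5 ≠ PT m 24 := by
    intro h
    have h1 : cZ (PT m 5) = cZ (PT m 24) := by rw [h]
    rw [PT_old (by norm_num), v5, PT_apex, cZ_cpt, cZ_cpt] at h1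
    norm_num at h1
  have ne2 : PT m 3 ≠ PT m (25 + m) := by
    intro h
    have h1 : cX (PT m 3) = cX (PT m (25 + m)) := by rw [h]
    rw [PT_old (by norm_num), v3, PT_chain, cX_cpt, cX_cpt] at h1
    field_simp at h1
    norm_num at h1
  have ne3 : PT m 23 ≠ PT m 25 := by
    intro h
    have h1 : cY (PT m 23) = cY (PT m (25 + 0)) := by rw [h]
    rw [PT_old (by norm_num), v23, PT_chain, cY_cpt, cY_cpt] at h1
    simp at h1
    field_simp at h1
    norm_num at h1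
  have s1 : 5 ∈ FV m 0 ∧ 24 ∈ FV m 0 ∧ 5 ∈ FV m 6 ∧ 24 ∈ FV m 6 := by
    refine ⟨mem_FV0.2 (by simp), mem_FV0.2 (by simp), mem_FV6.2 (by simp), mem_FV6.2 (by simp)⟩
  have s2 : 3 ∈ FV m 0 ∧ 25 + m ∈ FV m 0 ∧ 3 ∈ FV m 8 ∧ 25 + m ∈ FV m 8 := by
    refine ⟨mem_FV0.2 (by simp), mem_FV0.2 (by simp), mem_FV8.2 (by simp),
      mem_FV8.2 (Or.inr (Or.inr (Or.inr ⟨m, le_refl m, rfl⟩)))⟩
  have s3 : 23 ∈ FV m 6 ∧ 25 ∈ FV m 6 ∧ 23 ∈ FV m 8 ∧ 25 ∈ FV m 8 := by
    refine ⟨mem_FV6.2 (by simp), mem_FV6.2 (by simp), mem_FV8.2 (by simp),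
      mem_FV8.2 (Or.inr (Or.inr (Or.inr ⟨0, Nat.zero_le m, rfl⟩)))⟩
  by_cases h4 : 4 ∈ com i j
  · obtain ⟨hi4, hj4⟩ := (mem_com i j 4).1 h4
    have p1 := (pairs_spec hi hi4).1
    have p2 := (pairs_spec hj hj4).1
    rcases p1 with rfl | rfl | rfl <;> rcases p2 with rfl | rfl | rfl
    · exact absurd rfl hij
    · exact ⟨5, 24, ne1, s1.1, s1.2.2.1, s1.2.1, s1.2.2.2⟩
    · exact ⟨3, 25 + m, ne2, s2.1, s2.2.2.1, s2.2.1, s2.2.2.2⟩
    · exact ⟨5, 24, ne1, s1.2.2.1, s1.1, s1.2.2.2, s1.2.1⟩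
    · exact absurd rfl hij
    · exact ⟨23, 25, ne3, s3.1, s3.2.2.1, s3.2.1, s3.2.2.2⟩
    · exact ⟨3, 25 + m, ne2, s2.2.2.1, s2.1, s2.2.2.2, s2.2.1⟩
    · exact ⟨23, 25, ne3, s3.2.2.1, s3.1, s3.2.2.2, s3.2.1⟩
    · exact absurd rfl hij
  · have hl : (com i j).length = 2 := by simpa [adj] using ha
    obtain ⟨h1, h2, h3⟩ := com_spec i j hi hj hij
    match hc : com i j with
    | [a, b] =>
      have ma : a ∈ com i j := by rw [hc]; simp
      have mb : b ∈ com i j := by rw [hc]; simp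
      have hab : a ≠ b := by
        rintro rfl
        rw [hc] at h3
        simp at h3
      have a4 : a ≠ 4 := fun h => h4 (h ▸ ma)
      have b4 : b ≠ 4 := fun h => h4 (h ▸ mb)
      have la := h2 a ma
      have lb := h2 b mb
      obtain ⟨a1, a2⟩ := (mem_com i j a).1 ma
      obtain ⟨b1, b2⟩ := (mem_com i j b).1 mb
      refine ⟨a, b, ?_, old_mem hi a4 a1, old_mem hj a4 a2, old_mem hi b4 b1, old_mem hj b4 b2⟩
      rw [PT_old la, PT_old lb]
      exact pt_ne a b la lb hab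
    | [] => rw [hc] at hl; simp at hl
    | [a] => rw [hc] at hl; simp at hl
    | a :: b :: c :: L => rw [hc] at hl; simp at hl

end Pool.Agent.N355.TF
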