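import Pool.Agent.N355.TF.Union
import Pool.Agent.N355.TF.SepOO

/-! The faces are two-dimensional. -/

set_option autoImplicit false

namespace Pool.Agent.N355.TF

open Set Pool.Agent.Helper167.Torus

lemma area_li {a b c : ℕ} (hA : area (vert a) (vert b) (vert c) ≠ 0) :
    LinearIndependent ℝ ![pt (vert b) - pt (vert a), pt (vert c) - pt (vert a)] := by
  rw [LinearIndependent.pair_iff]
  intro s t hst
  have hx := congrArg (fun p : E3 => p 0) hst
  have hy := congrArg (fun p : E3 => p 1) hst
  simp [pt] at hx hy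
  have hwa := (vw_pos a).ne'
  have hwb := (vw_pos b).ne'
  have hwc := (vw_pos c).ne'
  have hA' : ((((vert b).x : ℝ) * (vert a).w - (vert a).x * (vert b).w) * ((vert c).y * (vert a).w - (vert a).y * (vert c).w)
    - ((vert b).y * (vert a).w - (vert a).y * (vert b).w) * ((vert c).x * (vert a).w - (vert a).x * (vert c).w)) ≠ 0 := by
    unfold area at hA
    exact_mod_cast hA
  have hdet : (((vert b).x : ℝ) / (vert b).w - (vert a).x / (vert a).w)
        * ((vert c).y / (vert c).w - (vert a).y / (vert a).w)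
      - ((vert b).y / (vert b).w - (vert a).y / (vert a).w)
        * ((vert c).x / (vert c).w - (vert a).x / (vert a).w) ≠ 0 := by
    intro h0
    apply hA'
    field_simp at h0
    linarith
  generalize ((vert b).x : ℝ) / (vert b).w - (vert a).x / (vert a).w = P at hx hdet
  generalize ((vert c).x : ℝ) / (vert c).w - (vert a).x / (vert a).w = Q at hx hdet
  generalize ((vert b).y : ℝ) / (vert b).w - (vert a).y / (vert a).w = R at hy hdet
  generalize ((vert c).y : ℝ) / (vert c).w - (vert a).y / (vert a).w = T at hy hdet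
  have e1 : s * (P * T - R * Q) = 0 := by linear_combination T * hx - Q * hy
  have e2 : t * (P * T - R * Q) = 0 := by linear_combination P * hy - R * hx
  exact ⟨(mul_eq_zero.1 e1).resolve_right hdet, (mul_eq_zero.1 e2).resolve_right hdet⟩

lemma chk_area4 : ((List.range 15).all fun i => match (fv i).filter (fun k => k != 4) with
    | a :: b :: c :: _ => decide (area (vert a) (vert b) (vert c) ≠ 0)
    | _ => false) = true := by
  decide +kernel

lemma area4_spec (i : ℕ) (hi : i < 15) : ∃ a ∈ fv i, ∃ b ∈ fv i, ∃ c ∈ fv i, a ≠ 4 ∧ b ≠ 4 ∧ c ≠ 4 ∧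
    area (vert a) (vert b) (vert c) ≠ 0 := by
  have h := chk_area4
  rw [List.all_eq_true] at h
  have h1 := h i (List.mem_range.2 hi)
  have hmem : ∀ k, k ∈ (fv i).filter (fun k => k != 4) → k ∈ fv i ∧ k ≠ 4 := by
    intro k hk
    rw [List.mem_filter] at hk
    exact ⟨hk.1, by simpa using hk.2⟩
  match hf : (fv i).filter (fun k => k != 4) with
  | a :: b :: c :: L =>
    rw [hf] at h1 hmem
    obtain ⟨a1, a2⟩ := hmem a (by simp)
    obtain ⟨b1, b2⟩ := hmem b (by simp)
    obtain ⟨c1, c2⟩ := hmem c (by simp)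
    exact ⟨a, a1, b, b1, c, c1, a2, b2, c2, by simpa using h1⟩
  | [] => rw [hf] at h1; simp at h1
  | [a] => rw [hf] at h1; simp at h1
  | [a, b] => rw [hf] at h1; simp at h1

theorem rank2 : RANK_stm := by
  intro m i hm hi
  rcases lt_or_ge i 15 with hi' | hi'
  · apply le_antisymm
    · rw [← face_finrank i hi']
      exact Submodule.finrank_mono (vectorSpan_mono ℝ (SF_sub_face hm hi'))
    · rw [vspan_hull]
      obtain ⟨a, ha, b, hb, c, hc, a4, b4, c4, hA⟩ := area4_spec i hi'
      have h2 : Module.finrank ℝ (Submodule.span ℝ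
          (Set.range ![pt (vert b) - pt (vert a), pt (vert c) - pt (vert a)])) = 2 := by
        rw [finrank_span_eq_card (area_li hA), Fintype.card_fin]
      rw [← h2]
      apply Submodule.finrank_mono
      rw [Submodule.span_le]
      have mem : ∀ k ∈ fv i, k ≠ 4 → pt (vert k) ∈ (SF m i : Set E3) := fun k hk h4 =>
        Finset.mem_coe.2 (mem_SF.2 ⟨k, old_mem hi' h4 hk, PT_old (fv_lt hi' hk)⟩)
      rintro _ ⟨k, rfl⟩
      fin_cases k
      · exact vsub_mem_vectorSpan ℝ (mem b hb b4) (mem a ha a4)
      · exact vsub_mem_vectorSpan ℝ (mem c hc c4) (mem a ha a4)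
  · obtain ⟨j, rfl⟩ := Nat.exists_eq_add_of_le hi'
    have hj : j < m := by omega
    have hmR : (0 : ℝ) < m := by exact_mod_cast hm
    have hjR : (j : ℝ) + 1 ≤ m := by exact_mod_cast hj
    have hj0 : (0 : ℝ) ≤ j := Nat.cast_nonneg j
    rw [vspan_hull]
    have hset : (SF m (15 + j) : Set E3) = Set.range ![PT m 24, PT m (25 + j), PT m (25 + (j + 1))] := by
      ext x
      rw [Finset.mem_coe, mem_SF]
      simp only [mem_FVnew, Set.mem_range]
      constructor
      · rintro ⟨k, h | h | h, rfl⟩
        · exact ⟨0, by rw [h]; rfl⟩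
        · exact ⟨1, by rw [h]; rfl⟩
        · exact ⟨2, by rw [h]; rfl⟩
      · rintro ⟨k, rfl⟩
        fin_cases k
        · exact ⟨24, Or.inl rfl, rfl⟩
        · exact ⟨25 + j, Or.inr (Or.inl rfl), rfl⟩
        · exact ⟨25 + (j + 1), Or.inr (Or.inr (by ring)), rfl⟩
    rw [hset]
    apply le_antisymm
    · exact finrank_vectorSpan_range_le ℝ _ (by simp)
    · set A := PT m 24 with hA
      set P := PT m (25 + j) with hP
      set Q := PT m (25 + (j + 1)) with hQ
      have hli : LinearIndependent ℝ ![P - A, Q - A] := by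
        rw [LinearIndependent.pair_iff]
        intro s t hst
        -- the coordinates `cX` and `cY` are linear up to constants
        have hl : ∀ (l : E3 →L[ℝ] ℝ), s * (l P - l A) + t * (l Q - l A) = 0 := by
          intro l
          have := congrArg l hst
          simpa using this
        have e6 : ∀ p : E3, lin (nf 6) p = 8 * cX p - 24 := by
          intro p
          have h := ev_eq (nf 6) p
          have h' : ((nf 6).w : ℝ) = 24 := by rw [nf6]; norm_num
          unfold cX
          linarith
        have e0 : ∀ p : E3, lin (nf 0) p = 36 * cY p - 24 := by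
          intro p
          have h := ev_eq (nf 0) p
          have h' : ((nf 0).w : ℝ) = 24 := by rw [nf0]; norm_num
          unfold cY
          linarith
        have h6 := hl (lin (nf 6))
        have h0 := hl (lin (nf 0))
        rw [e6, e6, e6, hA, hP, hQ, PT_apex, PT_chain, PT_chain, cX_cpt, cX_cpt, cX_cpt] at h6
        rw [e0, e0, e0, hA, hP, hQ, PT_apex, PT_chain, PT_chain, cY_cpt, cY_cpt, cY_cpt] at h0
        push_cast at h6 h0
        have k6 : s * (j : ℝ) ^ 2 + t * ((j : ℝ) + 1) ^ 2 = 0 := by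
          field_simp at h6
          linarith
        have k0 : s * ((m : ℝ) - j) ^ 2 + t * ((m : ℝ) - (j + 1)) ^ 2 = 0 := by
          field_simp at h0
          linarith
        have hdet : (j : ℝ) ^ 2 * ((m : ℝ) - (j + 1)) ^ 2 - ((j : ℝ) + 1) ^ 2 * ((m : ℝ) - j) ^ 2 ≠ 0 := by
          have e : (j : ℝ) ^ 2 * ((m : ℝ) - (j + 1)) ^ 2 - ((j : ℝ) + 1) ^ 2 * ((m : ℝ) - j) ^ 2 =
              (j * (m - (j + 1)) - (j + 1) * (m - j)) * (j * (m - (j + 1)) + (j + 1) * (m - j)) := by
            ring
          rw [e]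
          apply mul_ne_zero
          · have : (j : ℝ) * (m - (j + 1)) - (j + 1) * (m - j) = -m := by ring
            rw [this]
            linarith
          · have h1 : 0 ≤ (j : ℝ) * (m - (j + 1)) := mul_nonneg hj0 (by linarith)
            have h2 : 0 < ((j : ℝ) + 1) * (m - j) := mul_pos (by linarith) (by linarith)
            linarith
        constructor
        · have : s * ((j : ℝ) ^ 2 * ((m : ℝ) - (j + 1)) ^ 2 - ((j : ℝ) + 1) ^ 2 * ((m : ℝ) - j) ^ 2) = 0 := by
            linear_combination ((m : ℝ) - (j + 1)) ^ 2 * k6 - ((j : ℝ) + 1) ^ 2 * k0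
          exact (mul_eq_zero.1 this).resolve_right hdet
        · have : t * ((j : ℝ) ^ 2 * ((m : ℝ) - (j + 1)) ^ 2 - ((j : ℝ) + 1) ^ 2 * ((m : ℝ) - j) ^ 2) = 0 := by
            linear_combination (j : ℝ) ^ 2 * k0 - ((m : ℝ) - j) ^ 2 * k6
          exact (mul_eq_zero.1 this).resolve_right hdet
      have h2 : Module.finrank ℝ (Submodule.span ℝ (Set.range ![P - A, Q - A])) = 2 := by
        rw [finrank_span_eq_card hli, Fintype.card_fin]
      rw [← h2]
      apply Submodule.finrank_mono
      rw [Submodule.span_le]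
      rintro _ ⟨k, rfl⟩
      fin_cases k
      · exact vsub_mem_vectorSpan ℝ ⟨1, rfl⟩ ⟨0, rfl⟩
      · exact vsub_mem_vectorSpan ℝ ⟨2, rfl⟩ ⟨0, rfl⟩

lemma chk_cop4 : ((List.range 15).all fun i => (List.range 15).all fun j => i == j ||
    ((fv j).any fun v => decide (v ≠ 4) && decide (dot (nf i) (vert v) ≠ 0))) = true := by
  decide +kernel

lemma cop4_spec (i j : ℕ) (hi : i < 15) (hj : j < 15) (hij : i ≠ j) :
    ∃ v ∈ fv j, v ≠ 4 ∧ dot (nf i) (vert v) ≠ 0 := by
  have h := chk_cop4
  rw [List.all_eq_true] at h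
  have h1 := h i (List.mem_range.2 hi)
  rw [List.all_eq_true] at h1
  have h2 := h1 j (List.mem_range.2 hj)
  rw [Bool.or_eq_true, List.any_eq_true] at h2
  rcases h2 with h2 | ⟨v, hv, h2⟩
  · exact absurd (by simpa using h2) hij
  · rw [Bool.and_eq_true, decide_eq_true_eq, decide_eq_true_eq] at h2
    exact ⟨v, hv, h2⟩

theorem plane : PLANE_stm := by
  intro m i hm hi
  have hmR : (0 : ℝ) < m := by exact_mod_cast hm
  rcases lt_or_ge i 15 with hi' | hi'
  · refine ⟨lin (nf i), -(nf i).w, fun k hk => ?_, fun j hj hji => ?_⟩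
    · have h := ev_on_old hm hi' hk
      rw [ev_eq] at h
      linarith
    · -- a vertex with nonzero value
      suffices h : ∃ k ∈ FV m j, ev (nf i) (PT m k) ≠ 0 by
        obtain ⟨k, hk, hne⟩ := h
        refine ⟨k, hk, fun h' => hne ?_⟩
        rw [ev_eq, h']
        ring
      rcases lt_or_ge j 15 with hj' | hj'
      · obtain ⟨v, hv, h4, hne⟩ := cop4_spec i j hi' hj' hji.symm
        refine ⟨v, old_mem hj' h4 hv, fun h => hne ?_⟩
        rw [PT_old (fv_lt hj' hv), ev_vert_eq_zero] at h
        exact h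
      · obtain ⟨b, rfl⟩ := Nat.exists_eq_add_of_le hj'
        have hb : b < m := by omega
        have hbR : (b : ℝ) + 1 ≤ m := by exact_mod_cast hb
        by_cases h0 : i = 0
        · subst h0
          refine ⟨25 + b, mem_FVnew.2 (Or.inr (Or.inl rfl)), ?_⟩
          have e : ∀ p, ev (nf 0) p = 36 * cY p := fun p => by unfold cY; ring
          rw [e, PT_chain, cY_cpt]
          have h1 : 0 < ((m : ℝ) - b) := by linarith
          have : 0 < 36 * (((m : ℝ) - b) ^ 2 / (2 * m ^ 2)) := by positivity
          exact this.ne'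
        by_cases h6 : i = 6
        · subst h6
          refine ⟨25 + (b + 1), mem_FVnew.2 (Or.inr (Or.inr (by ring))), ?_⟩
          have e : ∀ p, ev (nf 6) p = 8 * cX p := fun p => by unfold cX; ring
          rw [e, PT_chain, cX_cpt]
          have : 0 < 8 * (((b + 1 : ℕ) : ℝ) ^ 2 / (2 * m ^ 2)) := by positivity
          exact this.ne'
        refine ⟨24, mem_FVnew.2 (Or.inl rfl), ?_⟩
        by_cases h8 : i = 8
        · subst h8
          have e : ∀ p, ev (nf 8) p = 4 * cZ p := fun p => by unfold cZ; ring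
          rw [e, PT_apex, cZ_cpt]
          norm_num
        rcases lt_or_ge i 12 with h12 | h12
        · exact (ev_new_pos hm h12 h0 h6 h8 (Or.inl rfl)).ne'
        · have h3 : i = 12 ∨ i = 13 ∨ i = 14 := by omega
          rcases h3 with rfl | rfl | rfl
          · rw [ev_t0, PT_apex, cpt_2]; norm_num
          · rw [ev_t1, PT_apex, cpt_1, cpt_2]; norm_num
          · rw [ev_t2, PT_apex, cpt_1, cpt_2]; norm_num
  · obtain ⟨a, rfl⟩ := Nat.exists_eq_add_of_le hi'
    have ha : a < m := by omega
    refine ⟨lG m a, -kG m a, fun k hk => ?_, fun j hj hji => ?_⟩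
    · have h := G_new_zero hm hk
      rw [G_eq] at h
      linarith
    · suffices h : ∃ k ∈ FV m j, G m a (PT m k) ≠ 0 by
        obtain ⟨k, hk, hne⟩ := h
        refine ⟨k, hk, fun h' => hne ?_⟩
        rw [G_eq, h']
        ring
      rcases lt_or_ge j 15 with hj' | hj'
      · obtain ⟨x, hx, -, -, -, -, h4, -⟩ := area4_spec j hj'
        refine ⟨x, old_mem hj' h4 hx, ?_⟩
        rw [PT_old (fv_lt hj' hx)]
        exact (G_old ha (fv_lt hj' hx) h4).ne'
      · obtain ⟨b, rfl⟩ := Nat.exists_eq_add_of_le hj'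
        have hab : a ≠ b := fun h => hji (by rw [h])
        rcases lt_or_gt_of_ne hab with h | h
        · refine ⟨25 + (b + 1), mem_FVnew.2 (Or.inr (Or.inr (by ring))), ?_⟩
          rw [G_chain hm]
          intro h0
          have := int_prod_zero h0
          omega
        · refine ⟨25 + b, mem_FVnew.2 (Or.inr (Or.inl rfl)), ?_⟩
          rw [G_chain hm]
          intro h0
          have := int_prod_zero h0
          omega

end Pool.Agent.N355.TF
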