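import Pool.Agent.N355.TF.Stm

/-! Separating functionals with the new faces; common vertices. -/

set_option autoImplicit false

namespace Pool.Agent.N355.TF

open Set Pool.Agent.Helper167.Torus

/-! ### membership in the index sets -/

lemma mem_FV0 {m k : ℕ} : k ∈ FV m 0 ↔ k = 20 ∨ k = 22 ∨ k = 5 ∨ k = 3 ∨ k = 2 ∨ k = 1 ∨ k = 24 ∨
    k = 25 + m := by
  simp [FV]

lemma mem_FV6 {m k : ℕ} : k ∈ FV m 6 ↔ k = 6 ∨ k = 7 ∨ k = 8 ∨ k = 21 ∨ k = 23 ∨ k = 5 ∨ k = 24 ∨
    k = 25 := by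
  simp [FV]

lemma mem_FV8 {m k : ℕ} : k ∈ FV m 8 ↔ k = 23 ∨ k = 17 ∨ k = 3 ∨ ∃ t ≤ m, k = 25 + t := by
  simp only [FV]
  simp only [show (8 : ℕ) ≠ 0 by norm_num, show (8 : ℕ) ≠ 6 by norm_num, if_false, if_true,
    Finset.mem_union, Finset.mem_insert, Finset.mem_singleton, Finset.mem_image, Finset.mem_range]
  constructor
  · rintro ((h | h | h) | ⟨t, ht, h⟩)
    · exact Or.inl h
    · exact Or.inr (Or.inl h)
    · exact Or.inr (Or.inr (Or.inl h))
    · exact Or.inr (Or.inr (Or.inr ⟨t, by omega, h.symm⟩))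
  · rintro (h | h | h | ⟨t, ht, h⟩)
    · exact Or.inl (Or.inl h)
    · exact Or.inl (Or.inr (Or.inl h))
    · exact Or.inl (Or.inr (Or.inr h))
    · exact Or.inr ⟨t, by omega, h.symm⟩

lemma mem_FVnew {m j k : ℕ} : k ∈ FV m (15 + j) ↔ k = 24 ∨ k = 25 + j ∨ k = 25 + j + 1 := by
  have h1 : ¬ 15 + j = 0 := by omega
  have h2 : ¬ 15 + j = 6 := by omega
  have h3 : ¬ 15 + j = 8 := by omega
  have h4 : ¬ 15 + j < 15 := by omega
  have h5 : 15 + j - 15 = j := by omega
  simp [FV, h2, h3, h4, h5]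

lemma mem_FVold {m i k : ℕ} (hi : i < 15) (h0 : i ≠ 0) (h6 : i ≠ 6) (h8 : i ≠ 8) :
    k ∈ FV m i ↔ k ∈ fv i := by
  simp [FV, h0, h6, h8, hi]

lemma chk_lt : ((List.range 15).all fun i => (fv i).all fun k => decide (k < 24)) = true := by
  decide +kernel

lemma fv_lt {i k : ℕ} (hi : i < 15) (hk : k ∈ fv i) : k < 24 := by
  have h := chk_lt
  rw [List.all_eq_true] at h
  have h1 := h i (List.mem_range.2 hi)
  rw [List.all_eq_true] at h1
  simpa using h1 k hk

lemma chk_four : ((List.range 15).all fun i => i == 0 || i == 6 || i == 8 ||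
    decide (4 ∉ fv i)) = true := by
  decide +kernel

lemma four_notMem {i : ℕ} (hi : i < 15) (h0 : i ≠ 0) (h6 : i ≠ 6) (h8 : i ≠ 8) : 4 ∉ fv i := by
  have h := chk_four
  rw [List.all_eq_true] at h
  have h1 := h i (List.mem_range.2 hi)
  simp only [Bool.or_eq_true, beq_iff_eq, decide_eq_true_eq] at h1
  tauto

lemma fv0 : fv 0 = [20, 22, 5, 4, 3, 2, 1] := by decide +kernel
lemma fv6 : fv 6 = [6, 7, 8, 21, 23, 4, 5] := by decide +kernel
lemma fv8 : fv 8 = [4, 23, 17, 3] := by decide +kernel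

/-- an index of an old face is an old vertex of that face (not the corner), the apex (faces 0, 6),
or a point of the chain -/
lemma FV_cases {m i k : ℕ} (hi : i < 15) (hk : k ∈ FV m i) :
    (k < 24 ∧ k ≠ 4 ∧ k ∈ fv i) ∨ (k = 24 ∧ (i = 0 ∨ i = 6)) ∨
      (∃ t ≤ m, k = 25 + t ∧ ((i = 0 ∧ t = m) ∨ (i = 6 ∧ t = 0) ∨ i = 8)) := by
  by_cases h0 : i = 0
  · subst h0
    rw [mem_FV0] at hk
    rw [fv0]
    rcases hk with h | h | h | h | h | h | h | h <;> subst h
    · left; simp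
    · left; simp
    · left; simp
    · left; simp
    · left; simp
    · left; simp
    · right; left; simp
    · right; right; exact ⟨m, le_refl m, rfl, Or.inl ⟨rfl, rfl⟩⟩
  by_cases h6 : i = 6
  · subst h6
    rw [mem_FV6] at hk
    rw [fv6]
    rcases hk with h | h | h | h | h | h | h | h <;> subst h
    · left; simp
    · left; simp
    · left; simp
    · left; simp
    · left; simp
    · left; simp
    · right; left; simp
    · right; right; exact ⟨0, Nat.zero_le m, rfl, Or.inr (Or.inl ⟨rfl, rfl⟩)⟩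
  by_cases h8 : i = 8
  · subst h8
    rw [mem_FV8] at hk
    rw [fv8]
    rcases hk with h | h | h | ⟨t, ht, h⟩
    · subst h; left; simp
    · subst h; left; simp
    · subst h; left; simp
    · right; right; exact ⟨t, ht, h, Or.inr (Or.inr rfl)⟩
  · rw [mem_FVold hi h0 h6 h8] at hk
    left
    refine ⟨fv_lt hi hk, ?_, hk⟩
    rintro rfl
    exact four_notMem hi h0 h6 h8 hk

/-! ### values of the functionals of the new faces -/

lemma int_prod_nonneg (t j : ℕ) : (0 : ℝ) ≤ ((t : ℝ) - j) * ((t : ℝ) - j - 1) := by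
  rcases le_or_gt t j with h | h
  · have h1 : (t : ℝ) ≤ j := by exact_mod_cast h
    nlinarith
  · have h1 : (j : ℝ) + 1 ≤ t := by exact_mod_cast h
    nlinarith

lemma int_prod_zero {t j : ℕ} (h : ((t : ℝ) - j) * ((t : ℝ) - j - 1) = 0) : t = j ∨ t = j + 1 := by
  rcases mul_eq_zero.1 h with h | h
  · left
    have : (t : ℝ) = j := by linarith
    exact_mod_cast this
  · right
    have : (t : ℝ) = j + 1 := by linarith
    exact_mod_cast this

/-- `G m j ≥ 0` at every vertex of every face, with equality only at the vertices of the face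
`15 + j` -/
lemma G_vert {m i j k : ℕ} (hm : 0 < m) (hi : i < 15 + m) (hj : j < m) (hk : k ∈ FV m i) :
    0 ≤ G m j (PT m k) ∧ (G m j (PT m k) = 0 → k ∈ FV m (15 + j)) := by
  have hchain : ∀ t : ℕ, 0 ≤ G m j (PT m (25 + t)) ∧
      (G m j (PT m (25 + t)) = 0 → 25 + t ∈ FV m (15 + j)) := by
    intro t
    rw [G_chain hm]
    refine ⟨int_prod_nonneg t j, fun h => ?_⟩
    rw [mem_FVnew]
    rcases int_prod_zero h with h | h <;> omega
  have hapex : 0 ≤ G m j (PT m 24) ∧ (G m j (PT m 24) = 0 → 24 ∈ FV m (15 + j)) := by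
    rw [G_apex]
    exact ⟨le_refl 0, fun _ => mem_FVnew.2 (Or.inl rfl)⟩
  rcases lt_or_ge i 15 with hi' | hi'
  · rcases FV_cases hi' hk with ⟨h1, h2, h3⟩ | ⟨rfl, -⟩ | ⟨t, ht, rfl, -⟩
    · rw [PT_old h1]
      have h := G_old hj h1 h2
      exact ⟨h.le, fun h0 => absurd h0 h.ne'⟩
    · exact hapex
    · exact hchain t
  · obtain ⟨a, rfl⟩ := Nat.exists_eq_add_of_le hi'
    rw [mem_FVnew] at hk
    rcases hk with rfl | rfl | rfl
    · exact hapex
    · exact hchain a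
    · have := hchain (a + 1)
      rwa [← add_assoc] at this

lemma G_new_zero {m j k : ℕ} (hm : 0 < m) (hk : k ∈ FV m (15 + j)) : G m j (PT m k) = 0 := by
  rw [mem_FVnew] at hk
  rcases hk with rfl | rfl | rfl
  · exact G_apex m j
  · rw [G_chain hm]; ring
  · have := G_chain hm j (j + 1)
    rw [← add_assoc] at this
    rw [this]; push_cast; ring

theorem sepNN : SEPNN_stm := by
  intro m i j hi hj hij
  have hm : 0 < m := by omega
  refine ⟨lG m i - lG m j, kG m j - kG m i, fun k hk => ?_, fun k hk => ?_⟩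
  · have h1 := G_new_zero hm hk
    obtain ⟨h2, h3⟩ := G_vert hm (show 15 + i < 15 + m by omega) hj hk
    have e1 := G_eq m i (PT m k)
    have e2 := G_eq m j (PT m k)
    simp only [sub_apply]
    refine ⟨by linarith, fun h => h3 (by linarith)⟩
  · have h1 := G_new_zero hm hk
    obtain ⟨h2, h3⟩ := G_vert hm (show 15 + j < 15 + m by omega) hi hk
    have e1 := G_eq m i (PT m k)
    have e2 := G_eq m j (PT m k)
    simp only [sub_apply]
    refine ⟨by linarith, fun h => h3 (by linarith)⟩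

lemma ev_cpt (f : V4) (a b c : ℝ) : ev f (cpt a b c) =
    (1 - a - b - c) * ev f (pt (vert 4)) + a * ev f (pt (vert 3)) + b * ev f (pt (vert 23)) +
      c * ev f (pt (vert 5)) := by
  rw [ev_eq, lin_cpt, ev_eq, ev_eq, ev_eq, ev_eq]
  ring

lemma chk_new : ((List.range 12).all fun i =>
    decide (0 ≤ dot (nf i) (vert 3)) && decide (0 ≤ dot (nf i) (vert 23)) &&
    decide (0 ≤ dot (nf i) (vert 5)) && decide (0 ≤ dot (nf i) (vert 4)) &&
    (i == 0 || i == 6 || i == 8 || decide (0 < dot (nf i) (vert 4)))) = true := by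
  decide +kernel

lemma ev_four {i : ℕ} (hi : i < 12) : 0 ≤ ev (nf i) (pt (vert 3)) ∧ 0 ≤ ev (nf i) (pt (vert 23)) ∧
    0 ≤ ev (nf i) (pt (vert 5)) ∧ 0 ≤ ev (nf i) (pt (vert 4)) ∧
    (i ≠ 0 → i ≠ 6 → i ≠ 8 → 0 < ev (nf i) (pt (vert 4))) := by
  have h := chk_new
  rw [List.all_eq_true] at h
  have h1 := h i (List.mem_range.2 hi)
  simp only [Bool.and_eq_true, Bool.or_eq_true, beq_iff_eq, decide_eq_true_eq] at h1
  obtain ⟨⟨⟨⟨a, b⟩, c⟩, d⟩, e⟩ := h1
  refine ⟨ev_vert_nonneg _ _ a, ev_vert_nonneg _ _ b, ev_vert_nonneg _ _ c, ev_vert_nonneg _ _ d,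
    fun h0 h6 h8 => ?_⟩
  have e' : 0 < dot (nf i) (vert 4) := by tauto
  rw [ev_vert]
  have : (0 : ℝ) < ((dot (nf i) (vert 4) : ℤ) : ℝ) := by exact_mod_cast e'
  exact div_pos this (vw_pos 4)

/-- the weights of the points of the chain -/
lemma chain_w {m t : ℕ} (hm : 0 < m) (ht : t ≤ m) : (0 : ℝ) ≤ (t : ℝ) ^ 2 / (2 * m ^ 2) ∧
    (0 : ℝ) ≤ ((m : ℝ) - t) ^ 2 / (2 * m ^ 2) ∧
    (t : ℝ) ^ 2 / (2 * m ^ 2) + ((m : ℝ) - t) ^ 2 / (2 * m ^ 2) ≤ 1 / 2 := by
  have h1 : (0 : ℝ) < m := by exact_mod_cast hm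
  have h2 : (t : ℝ) ≤ m := by exact_mod_cast ht
  have h3 : (0 : ℝ) ≤ t := Nat.cast_nonneg t
  refine ⟨by positivity, by positivity, ?_⟩
  rw [← add_div, div_le_div_iff₀ (by positivity) (by norm_num)]
  nlinarith [mul_nonneg h3 (sub_nonneg.2 h2)]

lemma ev_new_pos {m i k : ℕ} (hm : 0 < m) (hi : i < 12) (h0 : i ≠ 0) (h6 : i ≠ 6) (h8 : i ≠ 8)
    (hk : k = 24 ∨ ∃ t ≤ m, k = 25 + t) : 0 < ev (nf i) (PT m k) := by
  obtain ⟨a3, a23, a5, -, a4⟩ := ev_four hi
  have a4 := a4 h0 h6 h8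
  rcases hk with rfl | ⟨t, ht, rfl⟩
  · rw [PT_apex, ev_cpt]
    nlinarith
  · obtain ⟨w1, w2, w3⟩ := chain_w hm ht
    rw [PT_chain, ev_cpt]
    set a := (t : ℝ) ^ 2 / (2 * m ^ 2)
    set b := ((m : ℝ) - t) ^ 2 / (2 * m ^ 2)
    have : 0 < (1 - a - b - 0) * ev (nf i) (pt (vert 4)) := mul_pos (by linarith) a4
    have := mul_nonneg w1 a3
    have := mul_nonneg w2 a23
    linarith

lemma new_cases {m j k : ℕ} (hj : j < m) (hk : k ∈ FV m (15 + j)) :
    k = 24 ∨ ∃ t ≤ m, k = 25 + t ∧ (t = j ∨ t = j + 1) := by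
  rw [mem_FVnew] at hk
  rcases hk with h | h | h
  · exact Or.inl h
  · exact Or.inr ⟨j, hj.le, h, Or.inl rfl⟩
  · exact Or.inr ⟨j + 1, hj, by omega, Or.inr rfl⟩

/-- the functional of an old face is nonnegative at the vertices of a new face, and it vanishes only
at common vertices -/
lemma ev_on_new {m i j k : ℕ} (hi : i < 12) (hj : j < m) (hk : k ∈ FV m (15 + j)) :
    0 ≤ ev (nf i) (PT m k) ∧ (ev (nf i) (PT m k) = 0 → k ∈ FV m i) := by
  have hm : 0 < m := by omega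
  have hmR : (0 : ℝ) < m := by exact_mod_cast hm
  have hc := new_cases hj hk
  by_cases h0 : i = 0
  · subst h0
    have e : ∀ p, ev (nf 0) p = 36 * cY p := fun p => by unfold cY; ring
    rcases hc with rfl | ⟨t, ht, rfl, -⟩
    · rw [e, PT_apex, cY_cpt]
      exact ⟨by norm_num, fun _ => mem_FV0.2 (by simp)⟩
    · rw [e, PT_chain, cY_cpt]
      refine ⟨by positivity, fun h => mem_FV0.2 ?_⟩
      have h1 : ((m : ℝ) - t) ^ 2 = 0 := by
        by_contra hne
        have : 0 < ((m : ℝ) - t) ^ 2 := lt_of_le_of_ne (sq_nonneg _) (Ne.symm hne)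
        have : 0 < 36 * (((m : ℝ) - t) ^ 2 / (2 * m ^ 2)) := by positivity
        linarith
      have h2 : (m : ℝ) = t := by
        have := pow_eq_zero_iff (two_ne_zero) |>.1 h1
        linarith
      have h3 : m = t := by exact_mod_cast h2
      omega
  by_cases h6 : i = 6
  · subst h6
    have e : ∀ p, ev (nf 6) p = 8 * cX p := fun p => by unfold cX; ring
    rcases hc with rfl | ⟨t, ht, rfl, -⟩
    · rw [e, PT_apex, cX_cpt]
      exact ⟨by norm_num, fun _ => mem_FV6.2 (by simp)⟩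
    · rw [e, PT_chain, cX_cpt]
      refine ⟨by positivity, fun h => mem_FV6.2 ?_⟩
      have h1 : (t : ℝ) ^ 2 = 0 := by
        by_contra hne
        have : 0 < (t : ℝ) ^ 2 := lt_of_le_of_ne (sq_nonneg _) (Ne.symm hne)
        have : 0 < 8 * ((t : ℝ) ^ 2 / (2 * m ^ 2)) := by positivity
        linarith
      have h2 : (t : ℝ) = 0 := pow_eq_zero_iff (two_ne_zero) |>.1 h1
      have h3 : t = 0 := by exact_mod_cast h2
      omega
  by_cases h8 : i = 8
  · subst h8
    have e : ∀ p, ev (nf 8) p = 4 * cZ p := fun p => by unfold cZ; ring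
    rcases hc with rfl | ⟨t, ht, rfl, -⟩
    · rw [e, PT_apex, cZ_cpt]
      exact ⟨by norm_num, fun h => by norm_num at h⟩
    · rw [e, PT_chain, cZ_cpt]
      exact ⟨by norm_num, fun _ => mem_FV8.2 (Or.inr (Or.inr (Or.inr ⟨t, ht, rfl⟩)))⟩
  · have h := ev_new_pos hm hi h0 h6 h8 (k := k) (by
      rcases hc with h | ⟨t, ht, h, -⟩
      · exact Or.inl h
      · exact Or.inr ⟨t, ht, h⟩)
    exact ⟨h.le, fun h' => absurd h' h.ne'⟩

/-- the functional of an old face vanishes at its vertices -/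
lemma ev_on_old {m i k : ℕ} (hm : 0 < m) (hi : i < 15) (hk : k ∈ FV m i) :
    ev (nf i) (PT m k) = 0 := by
  have hmR : (m : ℝ) ≠ 0 := by exact_mod_cast hm.ne'
  rcases FV_cases hi hk with ⟨h1, h2, h3⟩ | ⟨rfl, h⟩ | ⟨t, ht, rfl, h⟩
  · rw [PT_old h1, ev_vert_eq_zero]
    exact (plane_spec i hi).1 k h3
  · rcases h with rfl | rfl
    · have e : ∀ p, ev (nf 0) p = 36 * cY p := fun p => by unfold cY; ring
      rw [e, PT_apex, cY_cpt]; ring
    · have e : ∀ p, ev (nf 6) p = 8 * cX p := fun p => by unfold cX; ring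
      rw [e, PT_apex, cX_cpt]; ring
  · rcases h with ⟨rfl, rfl⟩ | ⟨rfl, rfl⟩ | rfl
    · have e : ∀ p, ev (nf 0) p = 36 * cY p := fun p => by unfold cY; ring
      rw [e, PT_chain, cY_cpt]; simp
    · have e : ∀ p, ev (nf 6) p = 8 * cX p := fun p => by unfold cX; ring
      rw [e, PT_chain, cX_cpt]; simp
    · have e : ∀ p, ev (nf 8) p = 4 * cZ p := fun p => by unfold cZ; ring
      rw [e, PT_chain, cZ_cpt]; simp

lemma chk_low : ((List.range 3).all fun i => (fv (12 + i)).all fun k =>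
    decide ((vert k).z ≤ 3 * (vert k).w)) = true := by
  decide +kernel

theorem sepON : SEPON_stm := by
  intro m i j hm hi hj
  rcases lt_or_ge i 12 with hi' | hi'
  · refine ⟨lin (nf i) - lG m j, -(nf i).w + kG m j, fun k hk => ?_, fun k hk => ?_⟩
    · have h1 := ev_on_old hm hi hk
      obtain ⟨h2, h3⟩ := G_vert hm (show i < 15 + m by omega) hj hk
      have e1 := ev_eq (nf i) (PT m k)
      have e2 := G_eq m j (PT m k)
      simp only [sub_apply]
      refine ⟨by linarith, fun h => h3 (by linarith)⟩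
    · obtain ⟨h1, h1'⟩ := ev_on_new hi' hj hk
      have h2 := G_new_zero hm hk
      have e1 := ev_eq (nf i) (PT m k)
      have e2 := G_eq m j (PT m k)
      simp only [sub_apply]
      refine ⟨by linarith, fun h => h1' (by linarith)⟩
  · have hlow : ∀ k ∈ FV m i, (PT m k) 2 ≤ 3 := by
      intro k hk
      have h0 : i ≠ 0 := by omega
      have h6 : i ≠ 6 := by omega
      have h8 : i ≠ 8 := by omega
      rw [mem_FVold hi h0 h6 h8] at hk
      rw [PT_old (fv_lt hi hk)]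
      have h := chk_low
      rw [List.all_eq_true] at h
      have h1 := h (i - 12) (List.mem_range.2 (by omega))
      rw [List.all_eq_true] at h1
      have e : 12 + (i - 12) = i := by omega
      rw [e] at h1
      have h2 : (vert k).z ≤ 3 * (vert k).w := by simpa using h1 k hk
      have h3 : ((vert k).z : ℝ) ≤ 3 * (vert k).w := by exact_mod_cast h2
      have : pt (vert k) 2 = (vert k).z / (vert k).w := by simp [pt]
      rw [this, div_le_iff₀ (vw_pos k)]
      exact h3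
    have hhigh : ∀ k ∈ FV m (15 + j), 7 ≤ (PT m k) 2 := by
      intro k hk
      rcases new_cases hj hk with rfl | ⟨t, ht, rfl, -⟩
      · rw [PT_apex, cpt_2]; norm_num
      · obtain ⟨w1, w2, w3⟩ := chain_w hm ht
        rw [PT_chain, cpt_2]
        linarith
    have e : ∀ p : E3, (EuclideanSpace.proj 2 : E3 →L[ℝ] ℝ) p = p 2 := fun p => by simp
    refine ⟨EuclideanSpace.proj 2, 5, fun k hk => ?_, fun k hk => ?_⟩
    · have h := hlow k hk
      rw [e]
      exact ⟨by linarith, fun h' => by linarith⟩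
    · have h := hhigh k hk
      rw [e]
      exact ⟨by linarith, fun h' => by linarith⟩

/-! ### common vertices -/

lemma list_two (L : List ℕ) (h : L.length ≤ 2) : ∃ a b : ℕ, ∀ k ∈ L, k = a ∨ k = b := by
  match L with
  | [] => exact ⟨0, 0, by simp⟩
  | [a] => exact ⟨a, a, by simp⟩
  | [a, b] => exact ⟨a, b, by simp⟩
  | a :: b :: c :: L => simp at h

lemma com_oo {m i j : ℕ} (hm : 0 < m) (hi : i < 15) (hj : j < 15) (hij : i < j) :
    ∃ a b : ℕ, ∀ k, k ∈ FV m i → k ∈ FV m j → k = a ∨ k = b := by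
  by_cases h1 : i = 0 ∧ j = 6
  · obtain ⟨rfl, rfl⟩ := h1
    refine ⟨5, 24, fun k h1 h2 => ?_⟩
    rw [mem_FV0] at h1
    rw [mem_FV6] at h2
    omega
  by_cases h2 : i = 0 ∧ j = 8
  · obtain ⟨rfl, rfl⟩ := h2
    refine ⟨3, 25 + m, fun k h1 h2 => ?_⟩
    rw [mem_FV0] at h1
    rw [mem_FV8] at h2
    rcases h2 with h | h | h | ⟨t, ht, h⟩ <;> omega
  by_cases h3 : i = 6 ∧ j = 8
  · obtain ⟨rfl, rfl⟩ := h3
    refine ⟨23, 25, fun k h1 h2 => ?_⟩
    rw [mem_FV6] at h1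
    rw [mem_FV8] at h2
    rcases h2 with h | h | h | ⟨t, ht, h⟩ <;> omega
  obtain ⟨a, b, hab⟩ := list_two _ (com_spec i j hi hj hij.ne).1
  refine ⟨a, b, fun k hk1 hk2 => hab k ((mem_com i j k).2 ?_)⟩
  rcases FV_cases hi hk1 with ⟨a1, a2, a3⟩ | ⟨rfl, a1⟩ | ⟨t, ht, rfl, a1⟩
  · rcases FV_cases hj hk2 with ⟨b1, b2, b3⟩ | ⟨rfl, b1⟩ | ⟨t, ht, rfl, b1⟩
    · exact ⟨a3, b3⟩
    · omega
    · omega
  · rcases FV_cases hj hk2 with ⟨b1, b2, b3⟩ | ⟨-, b1⟩ | ⟨t, ht, h, b1⟩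
    · omega
    · omega
    · omega
  · rcases FV_cases hj hk2 with ⟨b1, b2, b3⟩ | ⟨h, b1⟩ | ⟨t', ht', h, b1⟩
    · omega
    · omega
    · omega

lemma com_on {m i j : ℕ} (hi : i < 15) (hj : j < m) :
    ∃ a b : ℕ, ∀ k, k ∈ FV m i → k ∈ FV m (15 + j) → k = a ∨ k = b := by
  by_cases h0 : i = 0
  · subst h0
    refine ⟨24, 25 + m, fun k h1 h2 => ?_⟩
    rw [mem_FV0] at h1
    rw [mem_FVnew] at h2
    omega
  by_cases h6 : i = 6
  · subst h6
    refine ⟨24, 25, fun k h1 h2 => ?_⟩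
    rw [mem_FV6] at h1
    rw [mem_FVnew] at h2
    omega
  by_cases h8 : i = 8
  · subst h8
    refine ⟨25 + j, 25 + j + 1, fun k h1 h2 => ?_⟩
    rw [mem_FV8] at h1
    rw [mem_FVnew] at h2
    rcases h1 with h | h | h | ⟨t, ht, h⟩ <;> omega
  · refine ⟨0, 0, fun k h1 h2 => ?_⟩
    rw [mem_FVold hi h0 h6 h8] at h1
    have := fv_lt hi h1
    rw [mem_FVnew] at h2
    omega

theorem comAll : COM_stm := by
  intro m i j hm hi hj hij
  rcases lt_or_ge i 15 with hi' | hi' <;> rcases lt_or_ge j 15 with hj' | hj'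
  · rcases lt_or_gt_of_ne hij with h | h
    · exact com_oo hm hi' hj' h
    · obtain ⟨a, b, hab⟩ := com_oo hm hj' hi' h
      exact ⟨a, b, fun k h1 h2 => hab k h2 h1⟩
  · obtain ⟨b, rfl⟩ := Nat.exists_eq_add_of_le hj'
    exact com_on hi' (by omega)
  · obtain ⟨a, rfl⟩ := Nat.exists_eq_add_of_le hi'
    obtain ⟨x, y, hxy⟩ := com_on (m := m) hj' (show a < m by omega)
    exact ⟨x, y, fun k h1 h2 => hxy k h2 h1⟩
  · obtain ⟨a, rfl⟩ := Nat.exists_eq_add_of_le hi'
    obtain ⟨b, rfl⟩ := Nat.exists_eq_add_of_le hj'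
    refine ⟨24, max (25 + a) (25 + b), fun k h1 h2 => ?_⟩
    rw [mem_FVnew] at h1 h2
    omega

end Pool.Agent.N355.TF
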