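import Pool.Agent.N355.TF.Basic

/-! Statements of the parts of the proof (project TF, MP_c9efbf_co). -/

set_option autoImplicit false

namespace Pool.Agent.N355.TF

open Set Pool.Agent.Helper167.Torus

/-- `U` is described by the inequalities -/
def IsUnion (m : ℕ) (U : Set E3) : Prop :=
  ∀ p : E3, p ∈ U ↔ (∀ f < 12, 0 ≤ ev (nf f) p) ∧ (∀ j < m, 0 ≤ G m j p) ∧ 3 ≤ rr p ∧
    ((∃ f < 12, ev (nf f) p = 0) ∨ (∃ j < m, G m j p = 0) ∨ rr p = 3)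

def HOMEO_stm : Prop := ∀ (m : ℕ) (U : Set E3), IsCompact U → IsUnion m U →
  Nonempty (↥U ≃ₜ (AddCircle (1 : ℝ) × AddCircle (1 : ℝ)))

def CORNER_stm : Prop := ∀ m j : ℕ, j < m → ∀ p : E3, 0 ≤ cX p → 0 ≤ cY p → 0 ≤ cZ p →
  G m j p = 0 → (∀ i < m, 0 ≤ G m i p) → p ∈ convexHull ℝ (SF m (15 + j) : Set E3)

def CUT_stm : Prop := ∀ m i : ℕ, 0 < m → i < 15 → ∀ p ∈ convexHull ℝ (PS (fv i) : Set E3),
  (∀ j < m, 0 ≤ G m j p) → p ∈ convexHull ℝ (SF m i : Set E3)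

def UNION_stm : Prop := ∀ m : ℕ, 0 < m →
  IsUnion m (⋃ i : Fin (15 + m), convexHull ℝ (SF m i : Set E3))

/-- a functional separating the faces `i` and `j` which is exact only at common vertices -/
def Sep (m i j : ℕ) : Prop := ∃ (l : E3 →L[ℝ] ℝ) (c : ℝ),
  (∀ k ∈ FV m i, l (PT m k) ≤ c ∧ (l (PT m k) = c → k ∈ FV m j)) ∧
  (∀ k ∈ FV m j, c ≤ l (PT m k) ∧ (l (PT m k) = c → k ∈ FV m i))

def SEPOO_stm : Prop := ∀ m i j : ℕ, 0 < m → i < 15 → j < 15 → i ≠ j → Sep m i j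

def SEPON_stm : Prop := ∀ m i j : ℕ, 0 < m → i < 15 → j < m → Sep m i (15 + j)

def SEPNN_stm : Prop := ∀ m i j : ℕ, i < m → j < m → i ≠ j → Sep m (15 + i) (15 + j)

def COM_stm : Prop := ∀ m i j : ℕ, 0 < m → i < 15 + m → j < 15 + m → i ≠ j →
  ∃ a b : ℕ, ∀ k, k ∈ FV m i → k ∈ FV m j → k = a ∨ k = b

def ADJ_stm : Prop := ∀ m i j : ℕ, 0 < m → i < 15 → j < 15 → i ≠ j → adj i j = true →
  ∃ a b : ℕ, PT m a ≠ PT m b ∧ a ∈ FV m i ∧ a ∈ FV m j ∧ b ∈ FV m i ∧ b ∈ FV m j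

def RANK_stm : Prop := ∀ m i : ℕ, 0 < m → i < 15 + m →
  Module.finrank ℝ (vectorSpan ℝ (convexHull ℝ (SF m i : Set E3))) = 2

def PLANE_stm : Prop := ∀ m i : ℕ, 0 < m → i < 15 + m → ∃ (l : E3 →L[ℝ] ℝ) (c : ℝ),
  (∀ k ∈ FV m i, l (PT m k) = c) ∧ ∀ j < 15 + m, j ≠ i → ∃ k ∈ FV m j, l (PT m k) ≠ c

end Pool.Agent.N355.TF
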