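import Pool.Agent.N355.TF.SepNew

/-! The union of the faces by inequalities. -/

set_option autoImplicit false

namespace Pool.Agent.N355.TF

open Set Pool.Agent.Helper167.Torus

/-- a new point as a convex combination of the old vertices with positive weight -/
lemma cpt_mem {s : Set E3} (hs : Convex ℝ s) {a b c : ℝ} (ha : 0 ≤ a) (hb : 0 ≤ b) (hc : 0 ≤ c)
    (habc : a + b + c ≤ 1) (h4 : pt (vert 4) ∈ s) (h3 : a = 0 ∨ pt (vert 3) ∈ s)
    (h23 : b = 0 ∨ pt (vert 23) ∈ s) (h5 : c = 0 ∨ pt (vert 5) ∈ s) : cpt a b c ∈ s := by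
  have key : ∀ (w : ℝ) (z : E3), (w = 0 ∨ z ∈ s) → ∃ z' ∈ s, w • z' = w • z := by
    rintro w z (h | h)
    · exact ⟨_, h4, by rw [h, zero_smul, zero_smul]⟩
    · exact ⟨z, h, rfl⟩
  obtain ⟨z3, m3, e3⟩ := key a _ h3
  obtain ⟨z23, m23, e23⟩ := key b _ h23
  obtain ⟨z5, m5, e5⟩ := key c _ h5
  have h := hs.sum_mem (t := Finset.univ) (w := ![1 - a - b - c, a, b, c])
    (z := ![pt (vert 4), z3, z23, z5]) (by
      intro i _
      fin_cases i
      · simp; linarith
      · simpa using ha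
      · simpa using hb
      · simpa using hc) (by
      simp [Fin.sum_univ_four]
      ring) (by
      intro i _
      fin_cases i
      · exact h4
      · exact m3
      · exact m23
      · exact m5)
  have he : cpt a b c = ∑ i : Fin 4, (![1 - a - b - c, a, b, c] : Fin 4 → ℝ) i •
      (![pt (vert 4), z3, z23, z5] : Fin 4 → E3) i := by
    rw [Fin.sum_univ_four]
    simp only [Matrix.cons_val_zero, Matrix.cons_val_one, Matrix.cons_val]
    rw [e3, e23, e5, v4, v3, v23, v5]
    ext i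
    fin_cases i <;> simp <;> ring
  rw [he]
  exact h

lemma SF_sub_face {m i : ℕ} (hm : 0 < m) (hi : i < 15) :
    convexHull ℝ (SF m i : Set E3) ⊆ convexHull ℝ (PS (fv i) : Set E3) := by
  have hmR : (0 : ℝ) < m := by exact_mod_cast hm
  have hold : ∀ k ∈ fv i, pt (vert k) ∈ convexHull ℝ (PS (fv i) : Set E3) := fun k hk =>
    subset_convexHull _ _ (Finset.mem_coe.2 ((mem_PS _ _).2 ⟨k, hk, rfl⟩))
  refine convexHull_min ?_ (convex_convexHull ℝ _)
  intro x hx
  obtain ⟨k, hk, rfl⟩ := mem_SF.1 (Finset.mem_coe.1 hx)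
  rcases FV_cases hi hk with ⟨h1, h2, h3⟩ | ⟨rfl, h⟩ | ⟨t, ht, rfl, h⟩
  · rw [PT_old h1]
    exact hold k h3
  · have h4 : 4 ∈ fv i := by rcases h with rfl | rfl <;> decide +kernel
    have h5 : 5 ∈ fv i := by rcases h with rfl | rfl <;> decide +kernel
    rw [PT_apex]
    exact cpt_mem (convex_convexHull ℝ _) le_rfl le_rfl (by norm_num) (by norm_num) (hold 4 h4)
      (Or.inl rfl) (Or.inl rfl) (Or.inr (hold 5 h5))
  · obtain ⟨w1, w2, w3⟩ := chain_w hm ht
    have h4 : 4 ∈ fv i := by rcases h with ⟨rfl, -⟩ | ⟨rfl, -⟩ | rfl <;> decide +kernel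
    rw [PT_chain]
    refine cpt_mem (convex_convexHull ℝ _) w1 w2 le_rfl (by linarith) (hold 4 h4) ?_ ?_ (Or.inl rfl)
    · rcases h with ⟨rfl, -⟩ | ⟨-, rfl⟩ | rfl
      · exact Or.inr (hold 3 (by decide +kernel))
      · left; simp
      · exact Or.inr (hold 3 (by decide +kernel))
    · rcases h with ⟨-, rfl⟩ | ⟨rfl, -⟩ | rfl
      · left; simp
      · exact Or.inr (hold 23 (by decide +kernel))
      · exact Or.inr (hold 23 (by decide +kernel))

lemma hull_ge {m i : ℕ} (l : E3 →L[ℝ] ℝ) (c : ℝ) (h : ∀ k ∈ FV m i, c ≤ l (PT m k)) {p : E3}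
    (hp : p ∈ convexHull ℝ (SF m i : Set E3)) : c ≤ l p := by
  have h2 := hull_le (-l) (-c) (s := SF m i) (fun y hy => by
    obtain ⟨k, hk, rfl⟩ := mem_SF.1 hy
    simpa using h k hk) p hp
  simpa using h2

lemma hull_le' {m i : ℕ} (l : E3 →L[ℝ] ℝ) (c : ℝ) (h : ∀ k ∈ FV m i, l (PT m k) ≤ c) {p : E3}
    (hp : p ∈ convexHull ℝ (SF m i : Set E3)) : l p ≤ c :=
  hull_le l c (s := SF m i) (fun y hy => by
    obtain ⟨k, hk, rfl⟩ := mem_SF.1 hy
    exact h k hk) p hp

lemma G_on_hull {m i j : ℕ} (hm : 0 < m) (hi : i < 15 + m) (hj : j < m) {p : E3}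
    (hp : p ∈ convexHull ℝ (SF m i : Set E3)) : 0 ≤ G m j p := by
  have h := hull_ge (lG m j) (-kG m j) (fun k hk => by
    have := (G_vert hm hi hj hk).1
    rw [G_eq] at this
    linarith) hp
  rw [G_eq]
  linarith

theorem union_desc (hC : CORNER_stm) (hK : CUT_stm) : UNION_stm := by
  intro m hm p
  rw [Set.mem_iUnion]
  constructor
  · rintro ⟨⟨i, hi⟩, hp⟩
    simp only at hp
    rcases lt_or_ge i 15 with hi' | hi'
    · have hU : p ∈ UU := by
        unfold UU
        exact Set.mem_iUnion.2 ⟨⟨i, hi'⟩, SF_sub_face hm hi' hp⟩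
      obtain ⟨a, b, c⟩ := UU_sub hU
      refine ⟨a, fun j hj => G_on_hull hm hi hj hp, b, ?_⟩
      rcases c with c | c
      · exact Or.inl c
      · exact Or.inr (Or.inr c)
    · obtain ⟨j, rfl⟩ := Nat.exists_eq_add_of_le hi'
      have hj : j < m := by omega
      refine ⟨fun f hf => ?_, fun j' hj' => G_on_hull hm hi hj' hp, ?_, Or.inr (Or.inl ⟨j, hj, ?_⟩)⟩
      · have h := hull_ge (lin (nf f)) (-(nf f).w) (fun k hk => by
          have := (ev_on_new hf hj hk).1
          rw [ev_eq] at this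
          linarith) hp
        rw [ev_eq]
        linarith
      · have e : ∀ p : E3, (EuclideanSpace.proj 2 : E3 →L[ℝ] ℝ) p = p 2 := fun p => by simp
        have h := hull_ge (EuclideanSpace.proj 2 : E3 →L[ℝ] ℝ) 3 (fun k hk => by
          rw [e]
          rcases new_cases hj hk with rfl | ⟨t, ht, rfl, -⟩
          · rw [PT_apex, cpt_2]; norm_num
          · obtain ⟨w1, w2, w3⟩ := chain_w hm ht
            rw [PT_chain, cpt_2]
            linarith) hp
        rw [e] at h
        unfold rr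
        exact h.trans (le_max_of_le_left (le_max_left _ _))
      · apply le_antisymm
        · have h := hull_le' (lG m j) (-kG m j) (fun k hk => by
            have := G_new_zero hm hk
            rw [G_eq] at this
            linarith) hp
          rw [G_eq]
          linarith
        · exact G_on_hull hm hi hj hp
  · rintro ⟨h1, h2, h3, h4⟩
    have hold : p ∈ UU → ∃ i : Fin (15 + m), p ∈ convexHull ℝ (SF m i : Set E3) := by
      intro hU
      unfold UU at hU
      obtain ⟨⟨i, hi⟩, hp⟩ := Set.mem_iUnion.1 hU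
      exact ⟨⟨i, by omega⟩, hK m i hm hi p hp h2⟩
    rcases h4 with h4 | ⟨j, hj, h4⟩ | h4
    · exact hold (UU_sup h1 h3 (Or.inl h4))
    · refine ⟨⟨15 + j, by omega⟩, hC m j hj p ?_ ?_ ?_ h4 h2⟩
      · exact div_nonneg (h1 6 (by norm_num)) (by norm_num)
      · exact div_nonneg (h1 0 (by norm_num)) (by norm_num)
      · exact div_nonneg (h1 8 (by norm_num)) (by norm_num)
    · exact hold (UU_sup h1 h3 (Or.inr h4))

end Pool.Agent.N355.TF
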